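import Mathlib

/-!
# Extension of functions from a subset of a normed space which is locally a tree

Let `V` be a finite set with an integer valued metric `δ` which is locally a tree, and `ι` a map of
`V` to a normed space `X` with `δ(u, v) ≤ ‖ι u - ι v‖`. There is a linear extension operator which
maps `L`-Lipschitz functions on `V` bounded by `L B` to `81 L`-Lipschitz functions on `X`.
-/

set_option autoImplicit false

open Finset

namespace Pool.Agent.Lib.MP_65fa9b_an_b

/-- Data for the extension. -/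
structure Emb (X V : Type*) [NormedAddCommGroup X] where
  /-- the distance -/
  δ : V → V → ℕ
  self : ∀ u, δ u u = 0
  comm : ∀ u v, δ u v = δ v u
  tri : ∀ u v w, δ u w ≤ δ u v + δ v w
  eq : ∀ u v, δ u v = 0 → u = v
  /-- range in which the set is a tree -/
  R : ℕ
  tree : ∀ u v, 0 < δ u v → δ u v ≤ R → ∃ w, δ u w = 1 ∧ δ w v + 1 = δ u v ∧
    ∀ w', δ u w' = 1 → w' ≠ w → δ w' v = δ u v + 1
  deg : ∀ u, ∃ w, δ u w = 1
  /-- the embedding -/
  ι : V → X
  le : ∀ u v, (δ u v : ℝ) ≤ ‖ι u - ι v‖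
  /-- the bound -/
  B : ℝ
  one_le : 1 ≤ B
  hR : 10 * B + 7 ≤ R

namespace Emb

variable {X V : Type*} [NormedAddCommGroup X] [Fintype V] [Nonempty V] (E : Emb X V)

/-- Convex function with slopes `1` and `2`. -/
noncomputable def th (B s : ℝ) : ℝ := max s (2 * s - B)

theorem le_th (B s : ℝ) : s ≤ th B s := le_max_left _ _

theorem le_th' (B s : ℝ) : 2 * s - B ≤ th B s := le_max_right _ _

theorem th_eq {B s : ℝ} (h : s ≤ B) : th B s = s := max_eq_left (by linarith)

theorem th_le {B s t r : ℝ} (h : s ≤ t + r) (hr : 0 ≤ r) : th B s ≤ th B t + 2 * r := by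
  unfold th
  refine max_le ?_ ?_
  · have := le_max_left t (2 * t - B)
    linarith
  · have := le_max_right t (2 * t - B)
    linarith

/-- The function `Ψ_x(u)`. -/
noncomputable def Psi (x : X) (u : V) : ℝ :=
  univ.sup' univ_nonempty fun v => (E.δ u v : ℝ) - th E.B ‖x - E.ι v‖

theorem le_Psi (x : X) (u v : V) : (E.δ u v : ℝ) - th E.B ‖x - E.ι v‖ ≤ E.Psi x u :=
  le_sup' (fun v => (E.δ u v : ℝ) - th E.B ‖x - E.ι v‖) (mem_univ v)

theorem exists_Psi (x : X) (u : V) : ∃ v, E.Psi x u = (E.δ u v : ℝ) - th E.B ‖x - E.ι v‖ := by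
  obtain ⟨v, -, hv⟩ := exists_mem_eq_sup' univ_nonempty
    fun v => (E.δ u v : ℝ) - th E.B ‖x - E.ι v‖
  exact ⟨v, hv⟩

theorem Psi_lip (x y : X) (u : V) : E.Psi x u ≤ E.Psi y u + 2 * ‖x - y‖ := by
  obtain ⟨v, hv⟩ := E.exists_Psi x u
  rw [hv]
  have h1 := E.le_Psi y u v
  have h2 : ‖y - E.ι v‖ ≤ ‖x - E.ι v‖ + ‖x - y‖ := by
    have : y - E.ι v = (x - E.ι v) - (x - y) := by abel
    rw [this]
    exact norm_sub_le _ _
  have h3 := th_le (B := E.B) h2 (norm_nonneg _)
  linarith

theorem Psi_le_add (x : X) (u w : V) : E.Psi x u ≤ E.Psi x w + E.δ u w := by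
  obtain ⟨v, hv⟩ := E.exists_Psi x u
  rw [hv]
  have h1 := E.le_Psi x w v
  have h2 : (E.δ u v : ℝ) ≤ E.δ u w + E.δ w v := by exact_mod_cast E.tri u w v
  linarith

open Classical in
/-- The edges. -/
noncomputable def edges : Finset (V × V) := univ.filter fun q => E.δ q.1 q.2 = 1

theorem mem_edges {q : V × V} : q ∈ E.edges ↔ E.δ q.1 q.2 = 1 := by simp [edges]

theorem edges_nonempty : E.edges.Nonempty := by
  obtain ⟨w, hw⟩ := E.deg (Classical.arbitrary V)
  exact ⟨(_, w), E.mem_edges.mpr hw⟩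

/-- The minimal value of `Ψ` on the metric graph. -/
noncomputable def mm (x : X) : ℝ :=
  (E.edges.inf' E.edges_nonempty (fun q => E.Psi x q.1 + E.Psi x q.2) - 1) / 2

theorem mm_le (x : X) {a b : V} (h : E.δ a b = 1) : 2 * E.mm x + 1 ≤ E.Psi x a + E.Psi x b := by
  have := inf'_le (s := E.edges) (fun q => E.Psi x q.1 + E.Psi x q.2) (E.mem_edges.mpr
    (show E.δ (a, b).1 (a, b).2 = 1 from h))
  unfold mm
  simp only at this
  linarith

theorem exists_mm (x : X) : ∃ a b, E.δ a b = 1 ∧ 2 * E.mm x + 1 = E.Psi x a + E.Psi x b := by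
  obtain ⟨q, hq, hq'⟩ := exists_mem_eq_inf' E.edges_nonempty
    fun q => E.Psi x q.1 + E.Psi x q.2
  refine ⟨q.1, q.2, E.mem_edges.mp hq, ?_⟩
  unfold mm
  rw [hq']
  ring

theorem mm_lip (x y : X) : E.mm x ≤ E.mm y + 2 * ‖x - y‖ := by
  obtain ⟨a, b, hab, h⟩ := E.exists_mm y
  have h1 := E.mm_le x hab
  have h2 := E.Psi_lip x y a
  have h3 := E.Psi_lip x y b
  linarith

/-- The partition of unity. -/
noncomputable def lam (x : X) (u : V) : ℝ := max 0 (1 + E.mm x - E.Psi x u)

theorem lam_nonneg (x : X) (u : V) : 0 ≤ E.lam x u := le_max_left _ _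

theorem lam_ne {x : X} {u : V} (h : E.lam x u ≠ 0) : E.Psi x u < E.mm x + 1 := by
  by_contra h'
  push Not at h'
  exact h (max_eq_left (by linarith))

theorem abs_lam_sub_le (x y : X) (u : V) : |E.lam x u - E.lam y u| ≤ 4 * ‖x - y‖ := by
  have h1 := E.Psi_lip x y u
  have h2 := E.Psi_lip y x u
  have h3 := E.mm_lip x y
  have h4 := E.mm_lip y x
  rw [norm_sub_rev y x] at h2 h4
  unfold lam
  refine (abs_max_sub_max_le_max 0 _ 0 _).trans ?_
  rw [sub_self, abs_zero]
  refine max_le (by positivity) ?_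
  rw [abs_le]
  constructor <;> linarith

/-- The distance to the image. -/
noncomputable def rho (x : X) : ℝ := univ.inf' univ_nonempty fun v => ‖x - E.ι v‖

theorem rho_le (x : X) (v : V) : E.rho x ≤ ‖x - E.ι v‖ :=
  inf'_le (fun v => ‖x - E.ι v‖) (mem_univ v)

theorem exists_rho (x : X) : ∃ v, E.rho x = ‖x - E.ι v‖ := by
  obtain ⟨v, -, hv⟩ := exists_mem_eq_inf' univ_nonempty fun v => ‖x - E.ι v‖
  exact ⟨v, hv⟩

theorem rho_nonneg (x : X) : 0 ≤ E.rho x := by
  obtain ⟨v, hv⟩ := E.exists_rho x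
  rw [hv]
  exact norm_nonneg _

theorem rho_lip (x y : X) : E.rho x ≤ E.rho y + ‖x - y‖ := by
  obtain ⟨v, hv⟩ := E.exists_rho y
  rw [hv]
  have h := E.rho_le x v
  have : x - E.ι v = (y - E.ι v) + (x - y) := by abel
  rw [this] at h
  exact h.trans (norm_add_le _ _)

section Local

variable {x : X} {u₀ : V}

theorem le_Psi_near (h0 : ‖x - E.ι u₀‖ ≤ E.B) (u : V) :
    (E.δ u u₀ : ℝ) - ‖x - E.ι u₀‖ ≤ E.Psi x u := by
  have := E.le_Psi x u u₀
  rwa [th_eq h0] at this

theorem Psi_near_le : E.Psi x u₀ ≤ ‖x - E.ι u₀‖ := by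
  obtain ⟨v, hv⟩ := E.exists_Psi x u₀
  rw [hv]
  have h1 := E.le u₀ v
  have h2 := le_th E.B ‖x - E.ι v‖
  have h3 : E.ι u₀ - E.ι v = (x - E.ι v) - (x - E.ι u₀) := by abel
  rw [h3] at h1
  have h4 := norm_sub_le (x - E.ι v) (x - E.ι u₀)
  linarith

theorem mm_le_near : E.mm x ≤ ‖x - E.ι u₀‖ := by
  obtain ⟨w, hw⟩ := E.deg u₀
  have h1 := E.mm_le x hw
  have h2 := E.Psi_near_le (x := x) (u₀ := u₀)
  have h3 := E.Psi_le_add x w u₀
  rw [E.comm, hw] at h3
  push_cast at h3
  linarith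

theorem relevant (h0 : ‖x - E.ι u₀‖ ≤ E.B) {u v : V}
    (hv : E.Psi x u = (E.δ u v : ℝ) - th E.B ‖x - E.ι v‖) : (E.δ u₀ v : ℝ) ≤ 4 * E.B := by
  have h1 := E.le_Psi_near h0 u
  have h2 := le_th' E.B ‖x - E.ι v‖
  have h3 := E.le u₀ v
  have h4 : E.ι u₀ - E.ι v = (x - E.ι v) - (x - E.ι u₀) := by abel
  rw [h4] at h3
  have h5 := norm_sub_le (x - E.ι v) (x - E.ι u₀)
  have h6 : (E.δ u v : ℝ) ≤ E.δ u u₀ + E.δ u₀ v := by exact_mod_cast E.tri u u₀ v
  linarith

theorem one_exception (h0 : ‖x - E.ι u₀‖ ≤ E.B) {u : V} (hu : (E.δ u u₀ : ℝ) ≤ 6 * E.B + 7)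
    {w₁ w₂ : V} (h1 : E.δ u w₁ = 1) (h2 : E.δ u w₂ = 1) (hne : w₁ ≠ w₂)
    (h : E.Psi x w₁ < E.Psi x u + 1) : E.Psi x u + 1 ≤ E.Psi x w₂ := by
  obtain ⟨v, hv⟩ := E.exists_Psi x u
  have h3 := E.relevant h0 hv
  have key : ∀ w, E.δ w v = E.δ u v + 1 → E.Psi x u + 1 ≤ E.Psi x w := by
    intro w hw
    have := E.le_Psi x w v
    rw [hw] at this
    push_cast at this
    rw [hv]
    linarith
  rcases Nat.eq_zero_or_pos (E.δ u v) with h4 | h4
  · have := E.eq _ _ h4
    subst this
    apply key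
    rw [E.self, E.comm, h2]
  · have h5 : E.δ u v ≤ E.R := by
      have h6 : (E.δ u v : ℝ) ≤ E.δ u u₀ + E.δ u₀ v := by exact_mod_cast E.tri u u₀ v
      have h7 := E.hR
      have : (E.δ u v : ℝ) ≤ E.R := by linarith
      exact_mod_cast this
    obtain ⟨w, hw, -, hw'⟩ := E.tree u v h4 h5
    by_cases h8 : w₂ = w
    · subst h8
      have := key w₁ (hw' w₁ h1 hne)
      linarith
    · exact key w₂ (hw' w₂ h2 h8)

/-- `Ψ` increases at unit speed away from a minimal edge. -/
theorem growth (h0 : ‖x - E.ι u₀‖ ≤ E.B) {a b : V} (hab : E.δ a b = 1)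
    (hmin : ∀ c d, E.δ c d = 1 → E.Psi x a + E.Psi x b ≤ E.Psi x c + E.Psi x d)
    (ha : (E.δ a u₀ : ℝ) ≤ 2 * E.B + 1) (n : ℕ) : ∀ u, E.δ u a = n → n ≤ E.δ u b →
    (n : ℝ) ≤ 4 * E.B + 6 → E.Psi x a + n ≤ E.Psi x u := by
  induction n using Nat.strong_induction_on with
  | _ n ih =>
    intro u hu hub hn
    match n, ih, hu, hub, hn with
    | 0, _, hu, _, _ =>
      rw [E.eq _ _ hu]
      simp
    | 1, _, hu, hub, _ =>
      have hB := E.one_le
      have hub' : b ≠ u := by
        rintro rfl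
        rw [E.self] at hub
        omega
      push_cast
      by_cases h1 : E.Psi x b < E.Psi x a + 1
      · exact E.one_exception h0 (by linarith) hab (by rw [E.comm]; exact hu) hub' h1
      · push Not at h1
        have := hmin a u (by rw [E.comm]; exact hu)
        linarith
    | k + 2, ih, hu, hub, hn =>
      have hR := E.hR
      push_cast at hn
      obtain ⟨w, h1, h2, -⟩ := E.tree u a (by omega) (by
        have : ((k + 2 : ℕ) : ℝ) ≤ E.R := by push_cast; linarith [E.one_le]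
        rw [hu]
        exact_mod_cast this)
      have h2' : E.δ w a = k + 1 := by omega
      obtain ⟨w', h3, h4, -⟩ := E.tree w a (by omega) (by
        have : ((k + 1 : ℕ) : ℝ) ≤ E.R := by push_cast; linarith [E.one_le]
        rw [h2']
        exact_mod_cast this)
      have h5 : k + 1 ≤ E.δ w b := by
        have := E.tri u w b
        omega
      have h6 := ih (k + 1) (by omega) w h2' h5 (by push_cast; linarith)
      push_cast at h6 ⊢
      have h7 := E.Psi_le_add x w' a
      have h8 : E.δ w' a = k := by omega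
      rw [h8] at h7
      have h9 : w' ≠ u := by
        rintro rfl
        omega
      have h10 := E.one_exception h0 (u := w) (w₁ := w') (w₂ := u) (by
        have h11 : (E.δ w u₀ : ℝ) ≤ E.δ w a + E.δ a u₀ := by exact_mod_cast E.tri w a u₀
        rw [h2'] at h11
        push_cast at h11
        linarith) h3 (by rw [E.comm]; exact h1) h9 (by linarith)
      linarith

/-- The structure of `Ψ_x` at a point `x` near the image. -/
theorem structure_near (h0 : ‖x - E.ι u₀‖ ≤ E.B) : ∃ a b, E.δ a b = 1 ∧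
    2 * E.mm x + 1 = E.Psi x a + E.Psi x b ∧ E.Psi x a ≤ E.mm x + 1 ∧ E.Psi x b ≤ E.mm x + 1 ∧
    ∀ u, E.Psi x u < E.mm x + 5 → E.mm x + min (E.δ u a : ℝ) (E.δ u b) ≤ E.Psi x u := by
  obtain ⟨a, b, hab, hm⟩ := E.exists_mm x
  have hB := E.one_le
  have hmin : ∀ c d, E.δ c d = 1 → E.Psi x a + E.Psi x b ≤ E.Psi x c + E.Psi x d := by
    intro c d hcd
    rw [← hm]
    exact E.mm_le x hcd
  have h1 := E.Psi_le_add x a b
  have h2 := E.Psi_le_add x b a
  rw [E.comm b a] at h2
  rw [hab] at h1 h2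
  push_cast at h1 h2
  have h3 := E.mm_le_near (x := x) (u₀ := u₀)
  have h4 := E.le_Psi_near h0 a
  have h5 := E.le_Psi_near h0 b
  refine ⟨a, b, hab, hm, by linarith, by linarith, fun u hu => ?_⟩
  have h6 := E.le_Psi_near h0 u
  have h7 : (E.δ u a : ℝ) ≤ E.δ u u₀ + E.δ u₀ a := by exact_mod_cast E.tri u u₀ a
  have h8 : (E.δ u b : ℝ) ≤ E.δ u u₀ + E.δ u₀ b := by exact_mod_cast E.tri u u₀ b
  rw [E.comm u₀ a] at h7
  rw [E.comm u₀ b] at h8
  rcases le_total (E.δ u a) (E.δ u b) with h | h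
  · have h9 := E.growth h0 hab hmin (by linarith) (E.δ u a) u rfl h (by linarith)
    have h10 := min_le_left (E.δ u a : ℝ) (E.δ u b)
    linarith
  · have h9 := E.growth h0 (a := b) (b := a) (by rw [E.comm]; exact hab)
      (fun c d hcd => by rw [add_comm (E.Psi x b)]; exact hmin c d hcd)
      (by linarith) (E.δ u b) u rfl h (by linarith)
    have h10 := min_le_right (E.δ u a : ℝ) (E.δ u b)
    linarith

end Local

/-- The local extension. -/
noncomputable def ht (h : V → ℝ) (x : X) : ℝ := ∑ u, E.lam x u * h u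

/-- At most two weights are non-zero, their sum is `1`, and all points with small `Ψ` are close
to each other. -/
theorem near {x : X} (hx : E.rho x ≤ E.B) : ∃ a b, a ≠ b ∧ E.lam x a + E.lam x b = 1 ∧
    (∀ u, E.lam x u ≠ 0 → u = a ∨ u = b) ∧ ∀ u, E.Psi x u < E.mm x + 5 → E.δ u a ≤ 5 := by
  obtain ⟨u₀, hu₀⟩ := E.exists_rho x
  rw [hu₀] at hx
  obtain ⟨a, b, hab, hm, ha, hb, h⟩ := E.structure_near hx
  have hlt : ∀ u, E.lam x u ≠ 0 → u = a ∨ u = b := by
    intro u hu
    have h1 := E.lam_ne hu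
    have h2 := h u (by linarith)
    have h3 : min (E.δ u a : ℝ) (E.δ u b) < 1 := by linarith
    rcases min_lt_iff.mp h3 with h4 | h4
    · left
      apply E.eq
      have : E.δ u a < 1 := by exact_mod_cast h4
      omega
    · right
      apply E.eq
      have : E.δ u b < 1 := by exact_mod_cast h4
      omega
  refine ⟨a, b, ?_, ?_, hlt, fun u hu => ?_⟩
  · rintro rfl
    rw [E.self] at hab
    omega
  · unfold lam
    rw [max_eq_right (by linarith), max_eq_right (by linarith)]
    linarith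
  · have h2 := h u hu
    have h3 : min (E.δ u a : ℝ) (E.δ u b) < 5 := by linarith
    have h4 := E.tri u b a
    rw [E.comm b a, hab] at h4
    rcases min_lt_iff.mp h3 with h5 | h5
    · have : E.δ u a < 5 := by exact_mod_cast h5
      omega
    · have : E.δ u b < 5 := by exact_mod_cast h5
      omega

theorem sum_lam {x : X} (hx : E.rho x ≤ E.B) (g : V → ℝ) : ∃ a b, a ≠ b ∧
    E.lam x a + E.lam x b = 1 ∧ ∑ u, E.lam x u * g u = E.lam x a * g a + E.lam x b * g b := by
  classical
  obtain ⟨a, b, hab, h1, h2, -⟩ := E.near hx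
  refine ⟨a, b, hab, h1, ?_⟩
  rw [← Finset.sum_pair (f := fun u => E.lam x u * g u) hab]
  symm
  refine Finset.sum_subset (subset_univ _) fun u _ hu => ?_
  by_contra h3
  have h4 : E.lam x u ≠ 0 := fun h => h3 (by simp [h])
  have := h2 u h4
  simp only [mem_insert, mem_singleton] at hu
  exact hu this

theorem sum_lam_eq_one {x : X} (hx : E.rho x ≤ E.B) : ∑ u, E.lam x u = 1 := by
  obtain ⟨a, b, -, h1, h2⟩ := E.sum_lam hx fun _ => 1
  simp only [mul_one] at h2
  rw [h2, h1]

theorem abs_ht_le {x : X} (hx : E.rho x ≤ E.B) {h : V → ℝ} {M : ℝ} (hh : ∀ u, |h u| ≤ M) :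
    |E.ht h x| ≤ M := by
  unfold ht
  calc |∑ u, E.lam x u * h u| ≤ ∑ u, |E.lam x u * h u| := Finset.abs_sum_le_sum_abs _ _
    _ ≤ ∑ u, E.lam x u * M := by
        refine Finset.sum_le_sum fun u _ => ?_
        rw [abs_mul, abs_of_nonneg (E.lam_nonneg x u)]
        exact mul_le_mul_of_nonneg_left (hh u) (E.lam_nonneg x u)
    _ = M := by rw [← Finset.sum_mul, E.sum_lam_eq_one hx, one_mul]

theorem abs_ht_sub_le {x y : X} (hx : E.rho x ≤ E.B) (hy : E.rho y ≤ E.B) (hxy : ‖x - y‖ ≤ 1)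
    {h : V → ℝ} {L : ℝ} (hL : 0 ≤ L) (hh : ∀ u v, |h u - h v| ≤ L * E.δ u v) :
    |E.ht h x - E.ht h y| ≤ 80 * L * ‖x - y‖ := by
  classical
  obtain ⟨a, b, hab, -, h2, h3⟩ := E.near hx
  obtain ⟨a', b', -, -, h2', -⟩ := E.near hy
  set S : Finset V := univ.filter fun u => E.lam x u ≠ 0 ∨ E.lam y u ≠ 0 with hS
  have hcard : S.card ≤ 4 := by
    have hsub : S ⊆ {a, b, a', b'} := by
      intro u hu
      simp only [hS, mem_filter, mem_univ, true_and] at hu
      simp only [mem_insert, mem_singleton]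
      rcases hu with hu | hu
      · rcases h2 u hu with h | h <;> tauto
      · rcases h2' u hu with h | h <;> tauto
    exact (Finset.card_le_card hsub).trans Finset.card_le_four
  have hclose : ∀ u ∈ S, E.δ u a ≤ 5 := by
    intro u hu
    simp only [hS, mem_filter, mem_univ, true_and] at hu
    apply h3
    rcases hu with hu | hu
    · have := E.lam_ne hu
      linarith
    · have h4 := E.lam_ne hu
      have h5 := E.Psi_lip x y u
      have h6 := E.mm_lip y x
      rw [norm_sub_rev y x] at h6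
      linarith
  have e : E.ht h x - E.ht h y = ∑ u ∈ S, (E.lam x u - E.lam y u) * (h u - h a) := by
    have e1 : ∑ u ∈ S, (E.lam x u - E.lam y u) * (h u - h a) =
        ∑ u, (E.lam x u - E.lam y u) * (h u - h a) := by
      refine Finset.sum_subset (subset_univ _) fun u _ hu => ?_
      simp only [hS, mem_filter, mem_univ, true_and, not_or, not_not] at hu
      rw [hu.1, hu.2]
      ring
    rw [e1]
    unfold ht
    have e2 : ∀ u, (E.lam x u - E.lam y u) * (h u - h a) =
        (E.lam x u * h u - E.lam y u * h u) - (E.lam x u * h a - E.lam y u * h a) := by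
      intro u; ring
    simp only [e2, Finset.sum_sub_distrib, ← Finset.sum_mul]
    rw [E.sum_lam_eq_one hx, E.sum_lam_eq_one hy]
    ring
  rw [e]
  calc |∑ u ∈ S, (E.lam x u - E.lam y u) * (h u - h a)| ≤
        ∑ u ∈ S, |(E.lam x u - E.lam y u) * (h u - h a)| := Finset.abs_sum_le_sum_abs _ _
    _ ≤ ∑ u ∈ S, (4 * ‖x - y‖) * (L * 5) := by
        refine Finset.sum_le_sum fun u hu => ?_
        rw [abs_mul]
        refine mul_le_mul (E.abs_lam_sub_le x y u) ((hh u a).trans ?_) (abs_nonneg _)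
          (by positivity)
        have : (E.δ u a : ℝ) ≤ 5 := by exact_mod_cast hclose u hu
        gcongr
    _ = S.card * ((4 * ‖x - y‖) * (L * 5)) := by rw [Finset.sum_const, nsmul_eq_mul]
    _ ≤ 4 * ((4 * ‖x - y‖) * (L * 5)) := by
        have : (S.card : ℝ) ≤ 4 := by exact_mod_cast hcard
        gcongr
    _ = 80 * L * ‖x - y‖ := by ring

/-- The cut-off. -/
noncomputable def chi (x : X) : ℝ := max 0 (1 - E.rho x / E.B)

theorem chi_nonneg (x : X) : 0 ≤ E.chi x := le_max_left _ _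

theorem B_pos : 0 < E.B := lt_of_lt_of_le one_pos E.one_le

theorem chi_le_one (x : X) : E.chi x ≤ 1 := by
  refine max_le zero_le_one ?_
  have := div_nonneg (E.rho_nonneg x) E.B_pos.le
  linarith

theorem chi_eq_zero {x : X} (h : E.B ≤ E.rho x) : E.chi x = 0 := by
  refine max_eq_left ?_
  have : 1 ≤ E.rho x / E.B := (one_le_div E.B_pos).mpr h
  linarith

theorem abs_chi_sub_le (x y : X) : |E.chi x - E.chi y| ≤ ‖x - y‖ / E.B := by
  unfold chi
  refine (abs_max_sub_max_le_max 0 _ 0 _).trans ?_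
  rw [sub_self, abs_zero]
  refine max_le (div_nonneg (norm_nonneg _) E.B_pos.le) ?_
  have e : (1 - E.rho x / E.B) - (1 - E.rho y / E.B) = (E.rho y - E.rho x) / E.B := by ring
  rw [e, abs_div, abs_of_pos E.B_pos]
  refine div_le_div_of_nonneg_right ?_ E.B_pos.le
  have h1 := E.rho_lip x y
  have h2 := E.rho_lip y x
  rw [norm_sub_rev y x] at h2
  rw [abs_le]
  constructor <;> linarith

/-- The extension operator. -/
noncomputable def HH (h : V → ℝ) (x : X) : ℝ := E.chi x * E.ht h x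

theorem HH_add (h h' : V → ℝ) (x : X) : E.HH (h + h') x = E.HH h x + E.HH h' x := by
  unfold HH ht
  simp only [Pi.add_apply, mul_add, Finset.sum_add_distrib]

theorem HH_smul (c : ℝ) (h : V → ℝ) (x : X) : E.HH (c • h) x = c * E.HH h x := by
  unfold HH ht
  simp only [Pi.smul_apply, smul_eq_mul]
  rw [Finset.mul_sum, Finset.mul_sum, Finset.mul_sum]
  refine Finset.sum_congr rfl fun u _ => ?_
  ring

theorem abs_HH_sub_le_of_le_one {x y : X} (hxy : ‖x - y‖ ≤ 1) {h : V → ℝ} {L : ℝ} (hL : 0 ≤ L)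
    (hh : ∀ u v, |h u - h v| ≤ L * E.δ u v) (hb : ∀ u, |h u| ≤ L * E.B) :
    |E.HH h x - E.HH h y| ≤ 81 * L * ‖x - y‖ := by
  have hB := E.B_pos
  have key : ∀ x y : X, ‖x - y‖ ≤ 1 → E.rho x ≤ E.B →
      |E.HH h x - E.HH h y| ≤ 81 * L * ‖x - y‖ := by
    intro x y hxy hx
    have h1 := E.abs_chi_sub_le x y
    have h2 := E.abs_ht_le hx hb
    have e : E.HH h x - E.HH h y = (E.chi x - E.chi y) * E.ht h x +
        E.chi y * (E.ht h x - E.ht h y) := by
      unfold HH; ring
    have h3 : |(E.chi x - E.chi y) * E.ht h x| ≤ L * ‖x - y‖ := by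
      rw [abs_mul]
      calc _ ≤ (‖x - y‖ / E.B) * (L * E.B) :=
            mul_le_mul h1 h2 (abs_nonneg _) (div_nonneg (norm_nonneg _) hB.le)
        _ = L * ‖x - y‖ := by field_simp
    have h4 : |E.chi y * (E.ht h x - E.ht h y)| ≤ 80 * L * ‖x - y‖ := by
      by_cases hy : E.rho y ≤ E.B
      · rw [abs_mul, abs_of_nonneg (E.chi_nonneg y)]
        calc _ ≤ 1 * (80 * L * ‖x - y‖) :=
              mul_le_mul (E.chi_le_one y) (E.abs_ht_sub_le hx hy hxy hL hh) (abs_nonneg _)
                zero_le_one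
          _ = _ := one_mul _
      · rw [E.chi_eq_zero (not_le.mp hy).le, zero_mul, abs_zero]
        positivity
    rw [e]
    refine (abs_add_le _ _).trans ?_
    linarith
  by_cases hx : E.rho x ≤ E.B
  · exact key x y hxy hx
  · by_cases hy : E.rho y ≤ E.B
    · have := key y x (by rw [norm_sub_rev]; exact hxy) hy
      rwa [abs_sub_comm, norm_sub_rev] at this
    · unfold HH
      rw [E.chi_eq_zero (not_le.mp hx).le, E.chi_eq_zero (not_le.mp hy).le, zero_mul, zero_mul,
        sub_zero, abs_zero]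
      positivity

end Emb

/-- A function on a normed space which is `K`-Lipschitz at distances at most `1` is
`K`-Lipschitz. -/
theorem lip_of_small {X : Type*} [NormedAddCommGroup X] [NormedSpace ℝ X] {f : X → ℝ} {K : ℝ}
    (h : ∀ x y, ‖x - y‖ ≤ 1 → |f x - f y| ≤ K * ‖x - y‖) (x y : X) :
    |f x - f y| ≤ K * ‖x - y‖ := by
  have key : ∀ n : ℕ, ∀ x y : X, ‖x - y‖ ≤ n + 1 → |f x - f y| ≤ K * ‖x - y‖ := by
    intro n
    induction n with
    | zero =>
      intro x y hxy
      exact h x y (by simpa using hxy)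
    | succ n ih =>
      intro x y hxy
      push_cast at hxy
      set t : ℝ := ((n : ℝ) + 2)⁻¹ with ht
      have hn : (0 : ℝ) < (n : ℝ) + 2 := by positivity
      have ht0 : 0 ≤ t := by positivity
      have ht1 : t * (n + 2) = 1 := by rw [ht]; exact inv_mul_cancel₀ hn.ne'
      have ht2 : t ≤ 1 := by
        rw [ht]
        exact inv_le_one_of_one_le₀ (by linarith [Nat.cast_nonneg (α := ℝ) n])
      set z : X := x + t • (y - x) with hz
      have h1 : ‖x - z‖ = t * ‖x - y‖ := by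
        have : x - z = t • (x - y) := by
          rw [hz, smul_sub, smul_sub]; abel
        rw [this, norm_smul, Real.norm_of_nonneg ht0]
      have h2 : ‖z - y‖ = (1 - t) * ‖x - y‖ := by
        have : z - y = (1 - t) • (x - y) := by
          rw [hz, sub_smul, one_smul, smul_sub, smul_sub]; abel
        rw [this, norm_smul, Real.norm_of_nonneg (by linarith)]
      have h3 : ‖x - z‖ ≤ 1 := by
        rw [h1]
        calc t * ‖x - y‖ ≤ t * (n + 2) := mul_le_mul_of_nonneg_left (by linarith) ht0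
          _ = 1 := ht1
      have h4 : ‖z - y‖ ≤ n + 1 := by
        rw [h2]
        calc (1 - t) * ‖x - y‖ ≤ (1 - t) * (n + 2) :=
              mul_le_mul_of_nonneg_left (by linarith) (by linarith)
          _ = n + 1 := by linear_combination -ht1
      have h5 := h x z h3
      have h6 := ih z y h4
      rw [h1] at h5
      rw [h2] at h6
      calc |f x - f y| = |(f x - f z) + (f z - f y)| := by congr 1; ring
        _ ≤ |f x - f z| + |f z - f y| := abs_add_le _ _
        _ ≤ K * (t * ‖x - y‖) + K * ((1 - t) * ‖x - y‖) := add_le_add h5 h6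
        _ = K * ‖x - y‖ := by ring
  obtain ⟨n, hn⟩ := exists_nat_ge ‖x - y‖
  exact key n x y (by linarith)

namespace Emb

variable {X V : Type*} [NormedAddCommGroup X] [NormedSpace ℝ X] [Fintype V] [Nonempty V]
  (E : Emb X V)

theorem abs_HH_sub_le {h : V → ℝ} {L : ℝ} (hL : 0 ≤ L)
    (hh : ∀ u v, |h u - h v| ≤ L * E.δ u v) (hb : ∀ u, |h u| ≤ L * E.B) (x y : X) :
    |E.HH h x - E.HH h y| ≤ 81 * L * ‖x - y‖ :=
  lip_of_small (fun x y hxy => E.abs_HH_sub_le_of_le_one hxy hL hh hb) x y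

omit [NormedSpace ℝ X] in
theorem HH_ι (h : V → ℝ) (v : V) : E.HH h (E.ι v) = h v := by
  classical
  have hPsi : ∀ u, E.Psi (E.ι v) u = E.δ u v := by
    intro u
    refine le_antisymm ?_ ?_
    · obtain ⟨w, hw⟩ := E.exists_Psi (E.ι v) u
      rw [hw]
      have h1 := le_th E.B ‖E.ι v - E.ι w‖
      have h2 := E.le v w
      have h3 : (E.δ u w : ℝ) ≤ E.δ u v + E.δ v w := by exact_mod_cast E.tri u v w
      linarith
    · have h1 := E.le_Psi (E.ι v) u v
      rw [sub_self, norm_zero, th_eq E.B_pos.le, sub_zero] at h1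
      exact h1
  have hrho : E.rho (E.ι v) = 0 := by
    refine le_antisymm ?_ (E.rho_nonneg _)
    have := E.rho_le (E.ι v) v
    rwa [sub_self, norm_zero] at this
  have hmm : E.mm (E.ι v) = 0 := by
    refine le_antisymm ?_ ?_
    · obtain ⟨w, hw⟩ := E.deg v
      have h1 := E.mm_le (E.ι v) hw
      rw [hPsi, hPsi, E.self, E.comm, hw] at h1
      push_cast at h1
      linarith
    · obtain ⟨a, b, hab, h1⟩ := E.exists_mm (E.ι v)
      rw [hPsi, hPsi] at h1
      have h2 := E.tri a v b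
      rw [hab, E.comm v b] at h2
      have h3 : (1 : ℝ) ≤ E.δ a v + E.δ b v := by exact_mod_cast h2
      linarith
  have hlam : ∀ u, E.lam (E.ι v) u = if u = v then 1 else 0 := by
    intro u
    unfold lam
    rw [hmm, hPsi]
    by_cases huv : u = v
    · subst huv
      rw [E.self, if_pos rfl]
      simp
    · rw [if_neg huv]
      have h1 : 1 ≤ E.δ u v := by
        rcases Nat.eq_zero_or_pos (E.δ u v) with h | h
        · exact absurd (E.eq _ _ h) huv
        · exact h
      have h2 : (1 : ℝ) ≤ E.δ u v := by exact_mod_cast h1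
      exact max_eq_left (by linarith)
  unfold HH ht chi
  rw [hrho, zero_div, sub_zero, max_eq_right zero_le_one, one_mul]
  simp [hlam]

end Emb

end Pool.Agent.Lib.MP_65fa9b_an_b
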