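import Pool.Agent.Lib.MP_65fa9b_an_b.Cover
import Pool.Agent.Lib.MP_65fa9b_an_b.Tree

/-!
# Averages over the fibres of a covering
-/

set_option autoImplicit false

open Finset

namespace Pool.Agent.Lib.MP_65fa9b_an_b

section

variable {Λ W : Type*} [DecidableEq Λ] [DecidableEq W]

/-- The graph: a letter `e` acts by the involution on words and by the transposition of the two
end points `s e`, `t e` of the edge `e`. -/
def cay (R : ℕ) (hR : 1 ≤ R) (s t : Λ → W) : Cay (Equiv.Perm (TT Λ R) × W) Λ R where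
  nb z e := (z.1 * gen R e, Equiv.swap (s e) (t e) z.2)
  nb_nb z e := by
    simp only [mul_assoc, gen_mul_self, mul_one, Equiv.swap_apply_self]
  free z l l' hl hl' hlR hlR' h := by
    have key : ∀ (l : List Λ) (z : Equiv.Perm (TT Λ R) × W),
        (l.foldl (fun (z : Equiv.Perm (TT Λ R) × W) e =>
          (z.1 * gen R e, Equiv.swap (s e) (t e) z.2)) z).1 = z.1 * (l.map (gen R)).prod := by
      intro l
      induction l with
      | nil => intro z; simp
      | cons e l ih =>
        intro z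
        rw [List.foldl_cons, ih, List.map_cons, List.prod_cons, mul_assoc]
    have h1 := congrArg Prod.fst h
    rw [key, key] at h1
    exact eq_of_prod_eq hl hl' hlR hlR' (mul_left_cancel h1)
  one_le := hR

theorem cay_nb (R : ℕ) (hR : 1 ≤ R) (s t : Λ → W) (z : Equiv.Perm (TT Λ R) × W) (e : Λ) :
    (cay R hR s t).nb z e = (z.1 * gen R e, Equiv.swap (s e) (t e) z.2) := rfl

end

section

variable {Λ W : Type*} [DecidableEq Λ] [DecidableEq W] [Fintype Λ] [Fintype W]
  {R : ℕ} (hR : 1 ≤ R) (s t : Λ → W) (w₀ : W)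

noncomputable instance : DecidableEq (TT Λ R) := Classical.decEq _

noncomputable instance : Fintype (TT Λ R) := Fintype.ofFinite _

/-- The covering space. -/
noncomputable abbrev VV (w₀ : W) : Type _ := (cay R hR s t).V ((1 : Equiv.Perm (TT Λ R)), w₀)

/-- The projection to `W`. -/
noncomputable def PP (v : VV hR s t w₀) : W := v.z.2

omit [Fintype W] in
theorem PP_move (v : VV hR s t w₀) (e : Λ) :
    PP hR s t w₀ (v.move e) = Equiv.swap (s e) (t e) (PP hR s t w₀ v) := rfl

/-- The fibres. -/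
noncomputable def fibre (w : W) : Finset (VV hR s t w₀) := univ.filter fun v => PP hR s t w₀ v = w

theorem mem_fibre {w : W} {v : VV hR s t w₀} :
    v ∈ fibre hR s t w₀ w ↔ PP hR s t w₀ v = w := by simp [fibre]

theorem base_mem : Cay.V.base (cay R hR s t) ((1 : Equiv.Perm (TT Λ R)), w₀) ∈
    fibre hR s t w₀ w₀ := by
  rw [mem_fibre]
  rfl

theorem move_mem {w : W} {v : VV hR s t w₀} (hv : v ∈ fibre hR s t w₀ w) (e : Λ) :
    v.move e ∈ fibre hR s t w₀ (Equiv.swap (s e) (t e) w) := by
  rw [mem_fibre] at hv ⊢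
  rw [PP_move, hv]

theorem sum_fibre (e : Λ) (g : VV hR s t w₀ → ℝ) :
    ∑ v ∈ fibre hR s t w₀ (t e), g v = ∑ v ∈ fibre hR s t w₀ (s e), g (v.move e) := by
  symm
  refine Finset.sum_nbij' (fun v => v.move e) (fun v => v.move e) ?_ ?_ ?_ ?_ ?_
  · intro v hv
    have := move_mem hR s t w₀ hv e
    rwa [Equiv.swap_apply_left] at this
  · intro v hv
    have := move_mem hR s t w₀ hv e
    rwa [Equiv.swap_apply_right] at this
  · intro v _
    exact v.move_move e
  · intro v _
    exact v.move_move e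
  · intro v _
    rfl

theorem card_fibre (e : Λ) :
    (fibre hR s t w₀ (t e)).card = (fibre hR s t w₀ (s e)).card := by
  have := sum_fibre hR s t w₀ e fun _ => 1
  simp only [Finset.sum_const, nsmul_eq_mul, mul_one] at this
  exact_mod_cast this

/-- Two points of `W` which are joined by a chain of `n` edges. -/
inductive Joined : ℕ → W → W → Prop
  | refl (w : W) : Joined 0 w w
  | step {n : ℕ} {w w' : W} (e : Λ) : Joined n w w' → w' = s e → Joined (n + 1) w (t e)

theorem card_of_joined {n : ℕ} {w w' : W} (h : Joined s t n w w') :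
    (fibre hR s t w₀ w').card = (fibre hR s t w₀ w).card := by
  induction h with
  | refl => rfl
  | step e _ h ih =>
    rw [card_fibre, ← h, ih]

theorem sum_of_joined {n : ℕ} {w w' : W} (h : Joined s t n w w') (g : VV hR s t w₀ → ℝ) (K : ℝ)
    (hg : ∀ v e, |g (v.move e) - g v| ≤ K) :
    |∑ v ∈ fibre hR s t w₀ w', g v - ∑ v ∈ fibre hR s t w₀ w, g v| ≤
      (fibre hR s t w₀ w).card * (n * K) := by
  induction h with
  | refl => simp
  | @step n w' w e h1 h2 ih =>
    have h3 : |∑ v ∈ fibre hR s t w₀ (t e), g v - ∑ v ∈ fibre hR s t w₀ (s e), g v| ≤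
        (fibre hR s t w₀ w').card * K := by
      rw [sum_fibre, ← Finset.sum_sub_distrib]
      calc |∑ v ∈ fibre hR s t w₀ (s e), (g (v.move e) - g v)| ≤
            ∑ v ∈ fibre hR s t w₀ (s e), |g (v.move e) - g v| := Finset.abs_sum_le_sum_abs _ _
        _ ≤ ∑ v ∈ fibre hR s t w₀ (s e), K := Finset.sum_le_sum fun v _ => hg v e
        _ = (fibre hR s t w₀ w').card * K := by
            rw [Finset.sum_const, nsmul_eq_mul, ← h2, card_of_joined hR s t w₀ h1]
    subst h2
    calc _ = |(∑ v ∈ fibre hR s t w₀ (t e), g v - ∑ v ∈ fibre hR s t w₀ (s e), g v) +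
            (∑ v ∈ fibre hR s t w₀ (s e), g v - ∑ v ∈ fibre hR s t w₀ w', g v)| := by
          congr 1; ring
      _ ≤ _ := abs_add_le _ _
      _ ≤ (fibre hR s t w₀ w').card * K + (fibre hR s t w₀ w').card * (n * K) :=
          add_le_add h3 ih
      _ = _ := by push_cast; ring

/-- The pull back of a function on `W` is Lipschitz. -/
theorem pull_lip {h : W → ℝ} {L B : ℝ} (hL : 0 ≤ L) (hh : ∀ e, |h (s e) - h (t e)| ≤ L)
    (hb : ∀ w, |h w| ≤ L * B) (hBR : 2 * B ≤ R) (u v : VV hR s t w₀) :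
    |h (PP hR s t w₀ u) - h (PP hR s t w₀ v)| ≤ L * u.δ v := by
  have hmove : ∀ (u : VV hR s t w₀) (e : Λ),
      |h (PP hR s t w₀ u) - h (PP hR s t w₀ (u.move e))| ≤ L := by
    intro u e
    rw [PP_move]
    by_cases h1 : PP hR s t w₀ u = s e
    · rw [h1, Equiv.swap_apply_left]
      exact hh e
    · by_cases h2 : PP hR s t w₀ u = t e
      · rw [h2, Equiv.swap_apply_right, abs_sub_comm]
        exact hh e
      · rw [Equiv.swap_apply_of_ne_of_ne h1 h2, sub_self, abs_zero]
        exact hL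
  have key : ∀ n : ℕ, n ≤ R → ∀ u v : VV hR s t w₀, u.δ v = n →
      |h (PP hR s t w₀ u) - h (PP hR s t w₀ v)| ≤ L * n := by
    intro n
    induction n with
    | zero =>
      intro _ u v huv
      rw [Cay.V.eq_of_δ_eq_zero huv]
      simp
    | succ n ih =>
      intro hn u v huv
      obtain ⟨e, he, -⟩ := Cay.V.tree_move (u := u) (v := v) (by omega) (by omega)
      have h1 := ih (by omega) (u.move e) v (by omega)
      have h2 := hmove u e
      push_cast
      calc _ = |(h (PP hR s t w₀ u) - h (PP hR s t w₀ (u.move e))) +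
            (h (PP hR s t w₀ (u.move e)) - h (PP hR s t w₀ v))| := by congr 1; ring
        _ ≤ _ := abs_add_le _ _
        _ ≤ L + L * n := add_le_add h2 h1
        _ = L * (n + 1) := by ring
  by_cases hn : u.δ v ≤ R
  · exact key _ hn u v rfl
  · have h1 := hb (PP hR s t w₀ u)
    have h2 := hb (PP hR s t w₀ v)
    have h3 : (R : ℝ) ≤ u.δ v := by exact_mod_cast (not_le.mp hn).le
    calc _ ≤ |h (PP hR s t w₀ u)| + |h (PP hR s t w₀ v)| := abs_sub _ _
      _ ≤ L * B + L * B := add_le_add h1 h2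
      _ = L * (2 * B) := by ring
      _ ≤ L * u.δ v := mul_le_mul_of_nonneg_left (hBR.trans h3) hL

end

section

variable {Λ W : Type*} [DecidableEq Λ] [DecidableEq W] [Fintype Λ] [Fintype W]
  {R : ℕ} (hR : 1 ≤ R) (s t : Λ → W) (w₀ : W)
  {X : Type*} [NormedAddCommGroup X] [NormedSpace ℝ X]

/-- The coefficients of a chain. -/
def co (a : ZMod 2) : ℝ := if a = 0 then 0 else 1

theorem abs_co_sub (a b : ZMod 2) : |co a - co b| = if a = b then 0 else 1 := by
  have h : ∀ a : ZMod 2, a = 0 ∨ a = 1 := by decide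
  rcases h a with rfl | rfl <;> rcases h b with rfl | rfl <;> simp [co]

/-- The embedding in a normed space. -/
noncomputable def emb (x : (cay R hR s t).K → X) (v : VV hR s t w₀) : X :=
  ∑ k, co (v.c k) • x k

theorem sum_abs_co (u v : VV hR s t w₀) : ∑ k, |co (u.c k) - co (v.c k)| = u.δ v := by
  simp only [abs_co_sub]
  unfold Cay.V.δ hammingDist
  rw [Finset.card_filter]
  push_cast
  refine Finset.sum_congr rfl fun k _ => ?_
  by_cases h : u.c k = v.c k <;> simp [h]

theorem emb_sub (x : (cay R hR s t).K → X) (u v : VV hR s t w₀) :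
    emb hR s t w₀ x u - emb hR s t w₀ x v = ∑ k, (co (u.c k) - co (v.c k)) • x k := by
  unfold emb
  rw [← Finset.sum_sub_distrib]
  refine Finset.sum_congr rfl fun k _ => ?_
  rw [sub_smul]

/-- The embedding data. -/
noncomputable def embData [Nonempty Λ] (x : (cay R hR s t).K → X)
    (hx : ∀ a : (cay R hR s t).K → ℝ, ∑ k, |a k| ≤ ‖∑ k, a k • x k‖) (B : ℝ) (hB : 1 ≤ B)
    (hBR : 10 * B + 7 ≤ R) : Emb X (VV hR s t w₀) where
  δ := Cay.V.δ
  self := Cay.V.δ_self
  comm := Cay.V.δ_comm
  tri := Cay.V.δ_triangle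
  eq := fun _ _ h => Cay.V.eq_of_δ_eq_zero h
  R := R
  tree := fun _ _ h h' => Cay.V.tree h h'
  deg := fun u => ⟨u.move (Classical.arbitrary Λ), Cay.V.δ_move u _⟩
  ι := emb hR s t w₀ x
  le := fun u v => by
    rw [emb_sub, ← sum_abs_co]
    exact hx _
  B := B
  one_le := hB
  hR := hBR

end

end Pool.Agent.Lib.MP_65fa9b_an_b
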