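import Pool.Agent.Lib.MP_65fa9b_an_b.Words

/-!
# A finite space of mod 2 chains which is locally a tree for the Hamming distance
-/

set_option autoImplicit false

open Finset

namespace Pool.Agent.Lib.MP_65fa9b_an_b

/-- A finite regular graph with labelled edges: every letter acts as an involution `z ↦ nb z e` on
the vertices, and short reduced words act freely. -/
structure Cay (Z Λ : Type*) (R : ℕ) where
  /-- the neighbour of `z` along the letter `e` -/
  nb : Z → Λ → Z
  nb_nb : ∀ z e, nb (nb z e) e = z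
  free : ∀ z (l l' : List Λ), Red l → Red l' → l.length ≤ R → l'.length ≤ R →
    l.foldl nb z = l'.foldl nb z → l = l'
  one_le : 1 ≤ R

namespace Cay

variable {Z Λ : Type*} {R : ℕ} (G : Cay Z Λ R)

theorem nb_ne (z : Z) (e : Λ) : G.nb z e ≠ z := by
  intro h
  have := G.free z [e] [] (List.isChain_singleton _) List.isChain_nil (by simpa using G.one_le)
    (Nat.zero_le _) (by simpa using h)
  simp at this

/-- Two pairs (letter, vertex) describe the same edge. -/
def edgeSetoid : Setoid (Λ × Z) where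
  r a b := a.1 = b.1 ∧ (b.2 = a.2 ∨ b.2 = G.nb a.2 a.1)
  iseqv :=
    { refl := fun a => ⟨rfl, Or.inl rfl⟩
      symm := by
        rintro ⟨e, z⟩ ⟨e', z'⟩ ⟨h, h'⟩
        simp only at h h'
        subst h
        refine ⟨rfl, ?_⟩
        rcases h' with rfl | rfl
        · exact Or.inl rfl
        · right
          simp only
          rw [G.nb_nb]
      trans := by
        rintro ⟨e, z⟩ ⟨e', z'⟩ ⟨e'', z''⟩ ⟨h, h'⟩ ⟨k, k'⟩
        simp only at h h' k k'
        subst h
        subst k
        refine ⟨rfl, ?_⟩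
        rcases h' with rfl | rfl
        · exact k'
        · rcases k' with rfl | rfl
          · exact Or.inr rfl
          · left
            simp only
            rw [G.nb_nb] }

/-- The edges. -/
abbrev K : Type _ := Quotient G.edgeSetoid

/-- The edge at `z` with label `e`. -/
def ed (z : Z) (e : Λ) : G.K := Quotient.mk G.edgeSetoid (e, z)

theorem ed_eq_iff {z z' : Z} {e e' : Λ} :
    G.ed z e = G.ed z' e' ↔ e = e' ∧ (z' = z ∨ z' = G.nb z e) := by
  unfold ed
  rw [Quotient.eq]
  rfl

theorem ed_nb (z : Z) (e : Λ) : G.ed (G.nb z e) e = G.ed z e :=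
  (G.ed_eq_iff.mpr ⟨rfl, Or.inr rfl⟩).symm

theorem exists_ed (k : G.K) : ∃ z e, k = G.ed z e := by
  induction k using Quotient.inductionOn with
  | h a => exact ⟨a.2, a.1, rfl⟩

noncomputable instance [Finite Z] [Finite Λ] : Fintype G.K := Fintype.ofFinite _

noncomputable instance : DecidableEq G.K := Classical.decEq _

variable [Fintype Λ] [DecidableEq Z]

/-- The mod 2 boundary. -/
def bdr (c : G.K → ZMod 2) (z : Z) : ZMod 2 := ∑ e, c (G.ed z e)

omit [DecidableEq Z] in
theorem bdr_add (c d : G.K → ZMod 2) : G.bdr (c + d) = G.bdr c + G.bdr d := by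
  funext z
  simp only [bdr, Pi.add_apply, Finset.sum_add_distrib]

omit [DecidableEq Z] in
theorem bdr_sub (c d : G.K → ZMod 2) : G.bdr (c - d) = G.bdr c - G.bdr d := by
  funext z
  simp only [bdr, Pi.sub_apply, Finset.sum_sub_distrib]

theorem bdr_single (z : Z) (e : Λ) :
    G.bdr (Pi.single (G.ed z e) 1) = Pi.single z 1 + Pi.single (G.nb z e) 1 := by
  classical
  funext z'
  have hne := G.nb_ne z e
  have key : ∀ e', (Pi.single (G.ed z e) (1 : ZMod 2) : G.K → ZMod 2) (G.ed z' e') =
      if e' = e then (if z' = z ∨ z' = G.nb z e then 1 else 0) else 0 := by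
    intro e'
    rw [Pi.single_apply]
    by_cases h : e' = e
    · subst h
      rw [if_pos rfl]
      congr 1
      rw [eq_comm (a := G.ed z' e'), ed_eq_iff]
      simp
    · rw [if_neg h, if_neg]
      rw [ed_eq_iff]
      exact fun hh => h hh.1
  unfold bdr
  simp only [key, Finset.sum_ite_eq', Finset.mem_univ, if_true, Pi.add_apply, Pi.single_apply]
  by_cases h1 : z' = z
  · subst h1
    rw [if_pos (Or.inl rfl), if_pos rfl, if_neg hne.symm, add_zero]
  · by_cases h2 : z' = G.nb z e
    · rw [if_pos (Or.inr h2), if_neg h1, if_pos h2, zero_add]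
    · rw [if_neg (by tauto), if_neg h1, if_neg h2, add_zero]

end Cay

section Hamming

variable {K : Type*} [Fintype K] [DecidableEq K]

theorem hn_add_single_of_ne {D : K → ZMod 2} {k : K} (h : D k ≠ 0) :
    hammingNorm (D + Pi.single k 1) + 1 = hammingNorm D := by
  unfold hammingNorm
  have e : (univ.filter fun i => (D + Pi.single k 1 : K → ZMod 2) i ≠ 0) =
      (univ.filter fun i => D i ≠ 0).erase k := by
    ext i
    simp only [mem_filter, mem_univ, true_and, mem_erase, Pi.add_apply, Pi.single_apply]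
    by_cases hi : i = k
    · subst hi
      have : D i = 1 := by
        revert h
        generalize D i = a
        revert a
        decide
      simp [this]
      decide
    · simp [hi]
  rw [e]
  exact Finset.card_erase_add_one (by simpa using h)

theorem hn_add_single_of_eq {D : K → ZMod 2} {k : K} (h : D k = 0) :
    hammingNorm (D + Pi.single k 1) = hammingNorm D + 1 := by
  unfold hammingNorm
  have e : (univ.filter fun i => (D + Pi.single k 1 : K → ZMod 2) i ≠ 0) =
      insert k (univ.filter fun i => D i ≠ 0) := by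
    ext i
    simp only [mem_filter, mem_univ, true_and, mem_insert, Pi.add_apply, Pi.single_apply]
    by_cases hi : i = k
    · subst hi
      simp [h]
    · simp [hi]
  rw [e]
  exact Finset.card_insert_of_notMem (by simpa using h)

end Hamming

namespace Cay

variable {Z Λ : Type*} {R : ℕ} (G : Cay Z Λ R) [Fintype Z] [DecidableEq Z] [Fintype Λ]

/-- A chain with few edges and boundary `z + v` is a reduced walk from `z` to `v`. -/
theorem trail (n : ℕ) : ∀ (D : G.K → ZMod 2) (z v : Z),
    G.bdr D = Pi.single z 1 + Pi.single v 1 → hammingNorm D = n → n ≤ R →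
    (∀ e, D (G.ed z e) ≠ 0 → ∃ l, Red (e :: l) ∧ (e :: l).length = n ∧
      (e :: l).foldl G.nb z = v) ∧ (0 < n → ∃ e, D (G.ed z e) ≠ 0) ∧ (n = 0 → z = v) := by
  induction n with
  | zero =>
    intro D z v hD hn _
    have hD0 : D = 0 := hammingNorm_eq_zero.mp hn
    subst hD0
    refine ⟨fun e he => absurd rfl he, fun h => absurd h (lt_irrefl _), fun _ => ?_⟩
    have h1 := congrFun hD z
    have h2 : G.bdr 0 z = 0 := by simp [bdr]
    rw [h2] at h1
    by_contra hzv
    simp [hzv] at h1
  | succ n ih =>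
    have step : ∀ (D : G.K → ZMod 2) (z v : Z), G.bdr D = Pi.single z 1 + Pi.single v 1 →
        hammingNorm D = n + 1 → n + 1 ≤ R → ∀ e, D (G.ed z e) ≠ 0 →
        ∃ l, Red (e :: l) ∧ (e :: l).length = n + 1 ∧ (e :: l).foldl G.nb z = v := by
      intro D z v hD hn hR e he
      have hD' : G.bdr (D + Pi.single (G.ed z e) 1) =
          Pi.single (G.nb z e) 1 + Pi.single v 1 := by
        rw [bdr_add, bdr_single, hD]
        have : (Pi.single z 1 + Pi.single z 1 : Z → ZMod 2) = 0 := by
          funext i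
          simp only [Pi.add_apply, Pi.zero_apply]
          exact CharTwo.add_self_eq_zero _
        calc _ = (Pi.single z 1 + Pi.single z 1 : Z → ZMod 2) +
              (Pi.single (G.nb z e) 1 + Pi.single v 1) := by abel
          _ = _ := by rw [this, zero_add]
      have hn' : hammingNorm (D + Pi.single (G.ed z e) 1) = n := by
        have := hn_add_single_of_ne he
        omega
      obtain ⟨h1, h2, h3⟩ := ih _ _ _ hD' hn' (by omega)
      rcases Nat.eq_zero_or_pos n with hn0 | hn0
      · subst hn0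
        exact ⟨[], List.isChain_singleton _, rfl, h3 rfl⟩
      · obtain ⟨e', he'⟩ := h2 hn0
        obtain ⟨l, hl, hlen, hw⟩ := h1 e' he'
        refine ⟨e' :: l, ?_, by simpa using hlen, hw⟩
        refine hl.cons ?_
        rw [List.head?_cons]
        intro hee
        obtain rfl : e' = e := by simpa using hee
        apply he'
        rw [ed_nb, Pi.add_apply, Pi.single_eq_same]
        generalize D (G.ed z e') = a at he
        revert a
        decide
    intro D z v hD hn hR
    refine ⟨step D z v hD hn hR, fun _ => ?_, fun h => absurd h (Nat.succ_ne_zero n)⟩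
    by_contra hcon
    push Not at hcon
    have h0 : G.bdr D z = 0 := Finset.sum_eq_zero fun e _ => hcon e
    have hzv : v = z := by
      by_contra hne
      rw [hD] at h0
      simp [Ne.symm hne] at h0
    subst hzv
    have hD0 : G.bdr D = 0 := by
      rw [hD]
      funext i
      simp only [Pi.add_apply, Pi.zero_apply]
      exact CharTwo.add_self_eq_zero _
    obtain ⟨k, hk⟩ : ∃ k, D k ≠ 0 := by
      by_contra h
      push Not at h
      have : D = 0 := funext h
      rw [this, hammingNorm_zero] at hn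
      omega
    obtain ⟨z', e', rfl⟩ := G.exists_ed k
    obtain ⟨l, hl, hlen, hw⟩ := step D z' z' (by
      rw [hD0]
      funext i
      simp only [Pi.add_apply, Pi.zero_apply]
      exact (CharTwo.add_self_eq_zero _).symm) hn hR e' hk
    have := G.free z' (e' :: l) [] hl List.isChain_nil (by omega) (Nat.zero_le _) hw
    simp at this

/-- The vertices of the covering space: chains with boundary `z + z₀`. -/
def V (z₀ : Z) : Type _ :=
  {v : Z × (G.K → ZMod 2) // G.bdr v.2 = Pi.single v.1 1 + Pi.single z₀ 1}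

variable {G} {z₀ : Z}

/-- The end point. -/
def V.z (v : G.V z₀) : Z := v.1.1

/-- The chain. -/
def V.c (v : G.V z₀) : G.K → ZMod 2 := v.1.2

omit [Fintype Z] in
theorem V.bdr_c (v : G.V z₀) : G.bdr v.c = Pi.single v.z 1 + Pi.single z₀ 1 := v.2

omit [Fintype Z] in
theorem V.ext' {u v : G.V z₀} (h : u.z = v.z) (h' : u.c = v.c) : u = v :=
  Subtype.ext (Prod.ext h h')

instance : Finite (G.V z₀) := by
  unfold V
  infer_instance

noncomputable instance : Fintype (G.V z₀) := Fintype.ofFinite _

/-- The base vertex. -/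
def V.base (G : Cay Z Λ R) (z₀ : Z) : G.V z₀ := ⟨(z₀, 0), by
  funext i
  simp only [Pi.add_apply]
  rw [CharTwo.add_self_eq_zero]
  simp [bdr]⟩

/-- Moving along an edge. -/
noncomputable def V.move (v : G.V z₀) (e : Λ) : G.V z₀ :=
  ⟨(G.nb v.z e, v.c + Pi.single (G.ed v.z e) 1), by
    show G.bdr (v.c + Pi.single (G.ed v.z e) 1) = Pi.single (G.nb v.z e) 1 + Pi.single z₀ 1
    rw [bdr_add, bdr_single, v.bdr_c]
    have : (Pi.single v.z 1 + Pi.single v.z 1 : Z → ZMod 2) = 0 := by
      funext i
      simp only [Pi.add_apply, Pi.zero_apply]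
      exact CharTwo.add_self_eq_zero _
    calc _ = (Pi.single v.z 1 + Pi.single v.z 1 : Z → ZMod 2) +
          (Pi.single (G.nb v.z e) 1 + Pi.single z₀ 1) := by abel
      _ = _ := by rw [this, zero_add]⟩

@[simp] theorem V.move_z (v : G.V z₀) (e : Λ) : (v.move e).z = G.nb v.z e := rfl

@[simp] theorem V.move_c (v : G.V z₀) (e : Λ) : (v.move e).c = v.c + Pi.single (G.ed v.z e) 1 := rfl

theorem V.move_move (v : G.V z₀) (e : Λ) : (v.move e).move e = v := by
  refine V.ext' (by simp [G.nb_nb]) ?_
  rw [V.move_c, V.move_c, V.move_z, ed_nb, add_assoc]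
  have : (Pi.single (G.ed v.z e) 1 + Pi.single (G.ed v.z e) 1 : G.K → ZMod 2) = 0 := by
    funext i
    simp only [Pi.add_apply, Pi.zero_apply]
    exact CharTwo.add_self_eq_zero _
  rw [this, add_zero]

/-- The Hamming distance. -/
noncomputable def V.δ (u v : G.V z₀) : ℕ := hammingDist u.c v.c

theorem V.δ_self (u : G.V z₀) : V.δ u u = 0 := hammingDist_self _

theorem V.δ_comm (u v : G.V z₀) : V.δ u v = V.δ v u := hammingDist_comm _ _

theorem V.δ_triangle (u v w : G.V z₀) : V.δ u w ≤ V.δ u v + V.δ v w := hammingDist_triangle _ _ _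

theorem V.bdr_sub (u v : G.V z₀) : G.bdr (u.c - v.c) = Pi.single u.z 1 + Pi.single v.z 1 := by
  rw [Cay.bdr_sub, u.bdr_c, v.bdr_c]
  funext i
  simp only [Pi.add_apply, Pi.sub_apply]
  generalize (Pi.single u.z 1 : Z → ZMod 2) i = a
  generalize (Pi.single v.z 1 : Z → ZMod 2) i = b
  generalize (Pi.single z₀ 1 : Z → ZMod 2) i = c
  revert a b c
  decide

theorem V.δ_eq (u v : G.V z₀) : V.δ u v = hammingNorm (u.c - v.c) := by
  unfold V.δ hammingDist hammingNorm
  congr 1
  ext i
  simp [sub_eq_zero]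

theorem V.eq_of_δ_eq_zero {u v : G.V z₀} (h : V.δ u v = 0) : u = v := by
  refine V.ext' ?_ (hammingDist_eq_zero.mp h)
  rw [V.δ_eq] at h
  exact ((G.trail 0 _ _ _ (V.bdr_sub u v) h (Nat.zero_le _)).2.2 rfl)

theorem V.δ_move (u : G.V z₀) (e : Λ) : V.δ u (u.move e) = 1 := by
  rw [V.δ_comm, V.δ_eq, V.move_c, add_sub_cancel_left]
  have := hn_add_single_of_eq (D := (0 : G.K → ZMod 2)) (k := G.ed u.z e) rfl
  rw [zero_add, hammingNorm_zero, zero_add] at this
  exact this

theorem V.move_c_sub (u v : G.V z₀) (e : Λ) :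
    (u.move e).c - v.c = (u.c - v.c) + Pi.single (G.ed u.z e) 1 := by
  rw [V.move_c]; abel

/-- The tree property, in terms of moves. -/
theorem V.tree_move {u v : G.V z₀} (h : 0 < V.δ u v) (hR : V.δ u v ≤ R) :
    ∃ e, V.δ (u.move e) v + 1 = V.δ u v ∧ ∀ e', e' ≠ e → V.δ (u.move e') v = V.δ u v + 1 := by
  obtain ⟨h1, h2, -⟩ := G.trail _ _ _ _ (V.bdr_sub u v) (V.δ_eq u v).symm hR
  obtain ⟨e, he⟩ := h2 h
  refine ⟨e, ?_, fun e' he' => ?_⟩
  · rw [V.δ_eq, V.δ_eq, V.move_c_sub]
    exact hn_add_single_of_ne he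
  · rw [V.δ_eq, V.δ_eq, V.move_c_sub]
    refine hn_add_single_of_eq ?_
    by_contra hne
    obtain ⟨l, hl, hlen, hw⟩ := h1 e he
    obtain ⟨l', hl', hlen', hw'⟩ := h1 e' hne
    have := G.free u.z _ _ hl hl' (by omega) (by omega) (hw.trans hw'.symm)
    simp only [List.cons.injEq] at this
    exact he' this.1.symm

theorem V.eq_move_of_δ_eq_one {u w : G.V z₀} (h : V.δ u w = 1) : ∃ e, w = u.move e := by
  obtain ⟨e, he, -⟩ := V.tree_move (u := u) (v := w) (by omega) (by rw [h]; exact G.one_le)
  refine ⟨e, ?_⟩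
  rw [h] at he
  exact (V.eq_of_δ_eq_zero (by omega)).symm

/-- The tree property. -/
theorem V.tree {u v : G.V z₀} (h : 0 < V.δ u v) (hR : V.δ u v ≤ R) :
    ∃ w, V.δ u w = 1 ∧ V.δ w v + 1 = V.δ u v ∧
      ∀ w', V.δ u w' = 1 → w' ≠ w → V.δ w' v = V.δ u v + 1 := by
  obtain ⟨e, he, he'⟩ := V.tree_move h hR
  refine ⟨u.move e, V.δ_move u e, he, fun w' hw' hne => ?_⟩
  obtain ⟨e', rfl⟩ := V.eq_move_of_δ_eq_one hw'
  exact he' e' fun hh => hne (by rw [hh])

end Cay

end Pool.Agent.Lib.MP_65fa9b_an_b
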