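import Mathlib

/-!
# Banach spaces containing the spaces `ℓ₁ⁿ` uniformly
-/

set_option autoImplicit false

namespace Pool.Agent.Lib.MP_65fa9b_an_b

/-- `X` contains the spaces `ℓ₁ⁿ`, `n ∈ ℕ`, uniformly: for some `C` and all `n` there are
`x₁, …, xₙ ∈ X` with `∑ |aₖ| ≤ ‖∑ aₖ xₖ‖ ≤ C ∑ |aₖ|` for all scalars `aₖ`. -/
def UniformlyContainsL1 (X : Type*) [NormedAddCommGroup X] [NormedSpace ℝ X] : Prop :=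
  ∃ C : ℝ, ∀ n : ℕ, ∃ x : Fin n → X, ∀ a : Fin n → ℝ,
    ∑ k, |a k| ≤ ‖∑ k, a k • x k‖ ∧ ‖∑ k, a k • x k‖ ≤ C * ∑ k, |a k|

end Pool.Agent.Lib.MP_65fa9b_an_b
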