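import Pool.Agent.Lib.MP_65fa9b_an_b.Defs
import Pool.Agent.Lib.MP_65fa9b_an_b.Average
import Pool.Agent.Lib.MP_65fa9b_an.Main

/-!
# The local factorisation for spaces containing `ℓ₁ⁿ` uniformly
-/

set_option autoImplicit false

open Finset

open Pool.Agent.Lib.MP_65fa9b_an

namespace Pool.Agent.Lib.MP_65fa9b_an_b

section

variable {F : Type*} [MetricSpace F] [Fintype F] {p : F}

/-- The integer distance. -/
noncomputable def rr (τ : ℝ) (a b : F) : ℕ := ⌈τ * dist a b⌉₊

/-- The points `(a, b, i)` of the subdivided complete graph. -/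
abbrev WW (F : Type*) (N : ℕ) : Type _ := F × F × Fin (N + 1)

/-- The fraction of the way from `a` to `b`. -/
noncomputable def fr (τ : ℝ) {N : ℕ} (w : WW F N) : ℝ :=
  (min (w.2.2 : ℕ) (rr τ w.1 w.2.1) : ℕ) / (rr τ w.1 w.2.1 : ℝ)

/-- Linear interpolation along the edges. -/
noncomputable def hf (τ : ℝ) (N : ℕ) (f : Lip0 F p) (w : WW F N) : ℝ :=
  f w.1 + fr τ w * (f w.2.1 - f w.1)

omit [Fintype F] in
theorem fr_nonneg (τ : ℝ) {N : ℕ} (w : WW F N) : 0 ≤ fr τ w := by
  unfold fr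
  positivity

omit [Fintype F] in
theorem fr_le_one (τ : ℝ) {N : ℕ} (w : WW F N) : fr τ w ≤ 1 := by
  unfold fr
  refine div_le_one_of_le₀ ?_ (Nat.cast_nonneg _)
  exact_mod_cast min_le_right _ _

omit [Fintype F] in
theorem hf_zero (τ : ℝ) (N : ℕ) (f : Lip0 F p) (a b : F) :
    hf τ N f (a, b, 0) = f a := by
  simp [hf, fr]

omit [Fintype F] in
theorem hf_add (τ : ℝ) (N : ℕ) (f g : Lip0 F p) : hf τ N (f + g) = hf τ N f + hf τ N g := by
  funext w
  simp only [hf, Pi.add_apply, Lip0.add_apply]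
  ring

omit [Fintype F] in
theorem hf_smul (τ : ℝ) (N : ℕ) (c : ℝ) (f : Lip0 F p) : hf τ N (c • f) = c • hf τ N f := by
  funext w
  simp only [hf, Pi.smul_apply, Lip0.smul_apply, smul_eq_mul]
  ring

omit [Fintype F] in
theorem abs_hf_le (τ : ℝ) (N : ℕ) (f : Lip0 F p) {D : ℝ} (hD : ∀ y, dist y p ≤ D) (w : WW F N) :
    |hf τ N f w| ≤ ‖f‖ * D := by
  have h1 : ∀ y, |f y| ≤ ‖f‖ * D := by
    intro y
    have := f.abs_sub_le y p
    rw [f.map_base, sub_zero] at this
    exact this.trans (mul_le_mul_of_nonneg_left (hD y) (norm_nonneg _))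
  have e : hf τ N f w = (1 - fr τ w) * f w.1 + fr τ w * f w.2.1 := by
    unfold hf; ring
  have h2 := fr_nonneg τ w
  have h3 := fr_le_one τ w
  rw [e]
  calc _ ≤ |(1 - fr τ w) * f w.1| + |fr τ w * f w.2.1| := abs_add_le _ _
    _ = (1 - fr τ w) * |f w.1| + fr τ w * |f w.2.1| := by
        rw [abs_mul, abs_mul, abs_of_nonneg h2, abs_of_nonneg (by linarith)]
    _ ≤ (1 - fr τ w) * (‖f‖ * D) + fr τ w * (‖f‖ * D) := by
        have := h1 w.1
        have := h1 w.2.1
        have h4 : 0 ≤ 1 - fr τ w := by linarith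
        gcongr
    _ = ‖f‖ * D := by ring

variable (p) in
/-- The edges: pairs of points between which the interpolated functions vary by at most the
Lipschitz constant. -/
def EE (τ : ℝ) (N : ℕ) : Type _ :=
  {q : WW F N × WW F N // ∀ f : Lip0 F p, |hf τ N f q.1 - hf τ N f q.2| ≤ ‖f‖ * τ⁻¹}

instance (τ : ℝ) (N : ℕ) : Finite (EE p τ N) := by
  unfold EE
  infer_instance

noncomputable instance (τ : ℝ) (N : ℕ) : Fintype (EE p τ N) := Fintype.ofFinite _

noncomputable instance (τ : ℝ) (N : ℕ) : DecidableEq (EE p τ N) := Classical.decEq _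

variable (p) in
/-- first end point -/
def ee1 (τ : ℝ) (N : ℕ) (q : EE p τ N) : WW F N := q.1.1

variable (p) in
/-- second end point -/
def ee2 (τ : ℝ) (N : ℕ) (q : EE p τ N) : WW F N := q.1.2

omit [Fintype F] in
theorem nonempty_EE {τ : ℝ} (hτ : 0 < τ) (N : ℕ) : Nonempty (EE p τ N) :=
  ⟨⟨((p, p, 0), (p, p, 0)), fun f => by
    rw [sub_self, abs_zero]
    positivity⟩⟩

omit [Fintype F] in
theorem step_allowed {τ : ℝ} (hτ : 0 < τ) {N : ℕ} (a b : F) (i : ℕ) (hi : i + 1 < N + 1)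
    (f : Lip0 F p) :
    |hf τ N f (a, b, ⟨i, by omega⟩) - hf τ N f (a, b, ⟨i + 1, hi⟩)| ≤ ‖f‖ * τ⁻¹ := by
  have e : hf τ N f (a, b, ⟨i, by omega⟩) - hf τ N f (a, b, ⟨i + 1, hi⟩) =
      (fr τ ((a, b, ⟨i, by omega⟩) : WW F N) - fr τ ((a, b, ⟨i + 1, hi⟩) : WW F N)) *
        (f b - f a) := by
    unfold hf; ring
  rw [e, abs_mul]
  rcases Nat.eq_zero_or_pos (rr τ a b) with h0 | h0
  · have h1 : τ * dist a b ≤ 0 := Nat.ceil_eq_zero.mp h0
    have h2 : dist a b = 0 := by
      have : 0 ≤ dist a b := dist_nonneg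
      nlinarith
    rw [dist_eq_zero.mp h2, sub_self, abs_zero, mul_zero]
    positivity
  · have h1 : (0 : ℝ) < rr τ a b := by exact_mod_cast h0
    have h2 : |fr τ ((a, b, ⟨i, by omega⟩) : WW F N) - fr τ ((a, b, ⟨i + 1, hi⟩) : WW F N)| ≤
        1 / rr τ a b := by
      unfold fr
      simp only
      rw [← sub_div, abs_div, abs_of_pos h1]
      refine div_le_div_of_nonneg_right ?_ h1.le
      rcases Nat.lt_or_ge i (rr τ a b) with h3 | h3
      · rw [min_eq_left h3.le, min_eq_left (Nat.succ_le_of_lt h3)]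
        push_cast
        rw [show (i : ℝ) - (i + 1) = -1 by ring]
        norm_num
      · rw [min_eq_right h3, min_eq_right (h3.trans (Nat.le_succ i)), sub_self, abs_zero]
        exact zero_le_one
    have h3 := f.abs_sub_le b a
    have h4 : dist b a ≤ rr τ a b * τ⁻¹ := by
      have h5 : τ * dist a b ≤ rr τ a b := Nat.le_ceil _
      rw [dist_comm]
      calc dist a b = (τ * dist a b) * τ⁻¹ := by field_simp
        _ ≤ _ := mul_le_mul_of_nonneg_right h5 (by positivity)
    calc _ ≤ (1 / (rr τ a b : ℝ)) * (‖f‖ * (rr τ a b * τ⁻¹)) :=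
          mul_le_mul h2 (h3.trans (mul_le_mul_of_nonneg_left h4 (norm_nonneg _))) (abs_nonneg _)
            (by positivity)
      _ = ‖f‖ * τ⁻¹ := by field_simp

omit [Fintype F] in
theorem joined_segment {τ : ℝ} (hτ : 0 < τ) {N : ℕ} (a b : F) (i : ℕ) (hi : i < N + 1) :
    Joined (ee1 p τ N) (ee2 p τ N) (i + 1) (a, a, 0) (a, b, ⟨i, hi⟩) := by
  induction i with
  | zero =>
    have h : ∀ f : Lip0 F p, |hf τ N f (a, a, 0) - hf τ N f (a, b, 0)| ≤ ‖f‖ * τ⁻¹ := by
      intro f
      rw [hf_zero, hf_zero, sub_self, abs_zero]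
      positivity
    exact Joined.step (s := ee1 p τ N) (t := ee2 p τ N) ⟨((a, a, 0), (a, b, 0)), h⟩
      (Joined.refl _) rfl
  | succ i ih =>
    exact Joined.step (s := ee1 p τ N) (t := ee2 p τ N)
      ⟨((a, b, ⟨i, by omega⟩), (a, b, ⟨i + 1, hi⟩)), step_allowed hτ a b i hi⟩
      (ih (by omega)) rfl

theorem joined_points {τ : ℝ} (hτ : 0 < τ) {N : ℕ} (hN : ∀ a b : F, rr τ a b ≤ N) (a b : F)
    (hab : rr τ a b ≠ 0) :
    Joined (ee1 p τ N) (ee2 p τ N) (rr τ a b + 2) (a, a, 0) (b, b, 0) := by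
  have h1 := joined_segment (p := p) hτ a b (rr τ a b) (Nat.lt_succ_of_le (hN a b))
  have h2 : ∀ f : Lip0 F p, |hf τ N f (a, b, ⟨rr τ a b, Nat.lt_succ_of_le (hN a b)⟩) -
      hf τ N f (b, b, 0)| ≤ ‖f‖ * τ⁻¹ := by
    intro f
    have h3 : hf τ N f (a, b, ⟨rr τ a b, Nat.lt_succ_of_le (hN a b)⟩) = f b := by
      unfold hf fr
      simp only [min_self]
      rw [div_self (by exact_mod_cast hab)]
      ring
    rw [h3, hf_zero, sub_self, abs_zero]
    positivity
  exact Joined.step (s := ee1 p τ N) (t := ee2 p τ N) ⟨(_, (b, b, 0)), h2⟩ h1 rfl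

end

section

open Classical in
/-- For every finite metric space `F`, the space `Lip₀(F)` factors through `Lip₀(X)` with a constant
which depends only on `X`. -/
theorem local_factor {X : Type*} [NormedAddCommGroup X] [NormedSpace ℝ X]
    (hX : UniformlyContainsL1 X) : ∃ C : ℝ, ∀ (F : Type _) [MetricSpace F] [Fintype F] (p : F),
    FacC C (Lip0 F p) (Lip0 X (0 : X)) := by
  obtain ⟨C, hC⟩ := hX
  have hC0 : 0 ≤ C := by
    obtain ⟨x, hx⟩ := hC 1
    have := hx fun _ => 1
    simp at this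
    linarith
  refine ⟨max 81 (3 * C), fun F _ _ p => ?_⟩
  -- constants
  obtain ⟨D, hD, hDF⟩ : ∃ D : ℝ, 0 < D ∧ ∀ y : F, dist y p ≤ D := by
    refine ⟨1 + ∑ y : F, dist y p, by positivity, fun y => ?_⟩
    have := Finset.single_le_sum (f := fun y : F => dist y p) (fun _ _ => dist_nonneg)
      (Finset.mem_univ y)
    linarith
  obtain ⟨δ, hδ, hδF⟩ : ∃ δ : ℝ, 0 < δ ∧ ∀ u v : F, u ≠ v → δ ≤ dist u v := by
    by_cases hne : ((Finset.univ : Finset (F × F)).filter fun e => e.1 ≠ e.2).Nonempty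
    · obtain ⟨e, he, hmin⟩ := Finset.exists_min_image _ (fun e : F × F => dist e.1 e.2) hne
      refine ⟨dist e.1 e.2, dist_pos.mpr (Finset.mem_filter.mp he).2, fun u v huv => ?_⟩
      exact hmin (u, v) (Finset.mem_filter.mpr ⟨Finset.mem_univ _, huv⟩)
    · refine ⟨1, one_pos, fun u v huv => ?_⟩
      exact absurd ⟨(u, v), Finset.mem_filter.mpr ⟨Finset.mem_univ _, huv⟩⟩ hne
  set τ : ℝ := 2 / δ with hτdef
  have hτ : 0 < τ := by positivity
  have hτd : ∀ u v : F, u ≠ v → 2 ≤ τ * dist u v := by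
    intro u v huv
    have := hδF u v huv
    rw [hτdef, div_mul_eq_mul_div, le_div_iff₀ hδ]
    linarith
  obtain ⟨N, hN⟩ : ∃ N : ℕ, ∀ a b : F, rr τ a b ≤ N :=
    ⟨∑ q : F × F, rr τ q.1 q.2, fun a b => Finset.single_le_sum
      (f := fun q : F × F => rr τ q.1 q.2) (fun _ _ => Nat.zero_le _) (Finset.mem_univ (a, b))⟩
  set B : ℝ := max 1 (τ * D) with hBdef
  have hB : 1 ≤ B := le_max_left _ _
  obtain ⟨R, hR⟩ := exists_nat_ge (10 * B + 7)
  have hR1 : 1 ≤ R := by
    have : (1 : ℝ) ≤ R := by linarith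
    exact_mod_cast this
  have := nonempty_EE (p := p) hτ N
  let w₀ : WW F N := (p, p, 0)
  -- the vectors
  obtain ⟨x, hx1, hx2⟩ : ∃ x : (cay R hR1 (ee1 p τ N) (ee2 p τ N)).K → X,
      (∀ a : (cay R hR1 (ee1 p τ N) (ee2 p τ N)).K → ℝ, ∑ k, |a k| ≤ ‖∑ k, a k • x k‖) ∧
      (∀ a : (cay R hR1 (ee1 p τ N) (ee2 p τ N)).K → ℝ,
        ‖∑ k, a k • x k‖ ≤ C * ∑ k, |a k|) := by
    obtain ⟨y, hy⟩ := hC (Fintype.card (cay R hR1 (ee1 p τ N) (ee2 p τ N)).K)
    let φ := Fintype.equivFin (cay R hR1 (ee1 p τ N) (ee2 p τ N)).K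
    have e1 : ∀ a : (cay R hR1 (ee1 p τ N) (ee2 p τ N)).K → ℝ,
        ∑ k, |a k| = ∑ i, |a (φ.symm i)| := fun a =>
      (Equiv.sum_comp φ.symm fun k => |a k|).symm
    have e2 : ∀ a : (cay R hR1 (ee1 p τ N) (ee2 p τ N)).K → ℝ,
        ∑ k, a k • y (φ k) = ∑ i, a (φ.symm i) • y i := by
      intro a
      rw [← Equiv.sum_comp φ.symm fun k => a k • y (φ k)]
      refine Finset.sum_congr rfl fun i _ => ?_
      rw [Equiv.apply_symm_apply]
    refine ⟨fun k => y (φ k), fun a => ?_, fun a => ?_⟩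
    · rw [e1, e2]
      exact (hy _).1
    · rw [e1, e2]
      exact (hy _).2
  let E := embData hR1 (ee1 p τ N) (ee2 p τ N) w₀ x hx1 B hB hR
  let P := PP hR1 (ee1 p τ N) (ee2 p τ N) w₀
  have : Nonempty (VV hR1 (ee1 p τ N) (ee2 p τ N) w₀) := ⟨Cay.V.base _ _⟩
  -- the embedding
  have hJ : ∀ f : Lip0 F p, ∀ u v : X,
      |E.HH (fun v => hf τ N f (P v)) u - E.HH (fun v => hf τ N f (P v)) v| ≤
        81 * (‖f‖ * τ⁻¹) * ‖u - v‖ := by
    intro f u v
    have hb : ∀ w, |hf τ N f w| ≤ ‖f‖ * τ⁻¹ * B := by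
      intro w
      refine (abs_hf_le τ N f hDF w).trans ?_
      have : D ≤ τ⁻¹ * B := by
        have h1 : τ * D ≤ B := le_max_right _ _
        calc D = τ⁻¹ * (τ * D) := by field_simp
          _ ≤ _ := mul_le_mul_of_nonneg_left h1 (by positivity)
      rw [mul_assoc]
      exact mul_le_mul_of_nonneg_left this (norm_nonneg _)
    refine E.abs_HH_sub_le (by positivity) (fun u v => ?_) (fun u => hb _) u v
    exact pull_lip hR1 (ee1 p τ N) (ee2 p τ N) w₀ (h := hf τ N f) (B := B) (by positivity)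
      (fun e => e.2 f) hb (by linarith) u v
  let J : Lip0 F p →L[ℝ] Lip0 X (0 : X) := LinearMap.mkContinuous
    { toFun := fun f => ⟨fun u => τ * (E.HH (fun v => hf τ N f (P v)) u -
          E.HH (fun v => hf τ N f (P v)) 0), by simp, ⟨81 * ‖f‖, by positivity⟩,
        LipschitzWith.of_dist_le_mul fun u v => by
          rw [Real.dist_eq, ← mul_sub, sub_sub_sub_cancel_right, abs_mul, abs_of_pos hτ,
            dist_eq_norm]
          calc _ ≤ τ * (81 * (‖f‖ * τ⁻¹) * ‖u - v‖) :=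
                mul_le_mul_of_nonneg_left (hJ f u v) hτ.le
            _ = 81 * ‖f‖ * ‖u - v‖ := by field_simp⟩
      map_add' := fun f g => by
        apply DFunLike.ext
        intro u
        have e1 : (fun v => hf τ N (f + g) (P v)) =
            (fun v => hf τ N f (P v)) + (fun v => hf τ N g (P v)) := by
          funext v
          rw [hf_add]
          rfl
        show τ * (E.HH (fun v => hf τ N (f + g) (P v)) u -
            E.HH (fun v => hf τ N (f + g) (P v)) 0) =
          τ * (E.HH (fun v => hf τ N f (P v)) u - E.HH (fun v => hf τ N f (P v)) 0) +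
          τ * (E.HH (fun v => hf τ N g (P v)) u - E.HH (fun v => hf τ N g (P v)) 0)
        rw [e1, E.HH_add, E.HH_add]
        ring
      map_smul' := fun c f => by
        apply DFunLike.ext
        intro u
        have e1 : (fun v => hf τ N (c • f) (P v)) = c • (fun v => hf τ N f (P v)) := by
          funext v
          rw [hf_smul]
          rfl
        show τ * (E.HH (fun v => hf τ N (c • f) (P v)) u -
            E.HH (fun v => hf τ N (c • f) (P v)) 0) =
          c * (τ * (E.HH (fun v => hf τ N f (P v)) u - E.HH (fun v => hf τ N f (P v)) 0))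
        rw [e1, E.HH_smul, E.HH_smul]
        ring }
    81 (fun f => by
      refine Lip0.norm_le _ (by positivity) fun u v => ?_
      show |τ * (E.HH (fun v => hf τ N f (P v)) u - E.HH (fun v => hf τ N f (P v)) 0) -
        τ * (E.HH (fun v => hf τ N f (P v)) v - E.HH (fun v => hf τ N f (P v)) 0)| ≤ _
      rw [← mul_sub, sub_sub_sub_cancel_right, abs_mul, abs_of_pos hτ, dist_eq_norm]
      calc _ ≤ τ * (81 * (‖f‖ * τ⁻¹) * ‖u - v‖) :=
            mul_le_mul_of_nonneg_left (hJ f u v) hτ.le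
        _ = 81 * ‖f‖ * ‖u - v‖ := by field_simp)
  -- the averages
  let S : Lip0 X (0 : X) → F → ℝ := fun g a =>
    ∑ v ∈ fibre hR1 (ee1 p τ N) (ee2 p τ N) w₀ (a, a, 0), g (E.ι v)
  let n : ℝ := (fibre hR1 (ee1 p τ N) (ee2 p τ N) w₀ w₀).card
  have hn : 0 < n := by
    have h : 0 < (fibre hR1 (ee1 p τ N) (ee2 p τ N) w₀ w₀).card :=
      Finset.card_pos.mpr ⟨_, base_mem hR1 (ee1 p τ N) (ee2 p τ N) w₀⟩
    exact Nat.cast_pos.mpr h
  have hrr : ∀ a b : F, a ≠ b → rr τ a b ≠ 0 := by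
    intro a b hab h0
    have h1 : τ * dist a b ≤ 0 := Nat.ceil_eq_zero.mp h0
    have h2 := hτd a b hab
    linarith
  have hcard : ∀ a : F,
      ((fibre hR1 (ee1 p τ N) (ee2 p τ N) w₀ ((a, a, 0) : WW F N)).card : ℝ) = n := by
    intro a
    by_cases h : p = a
    · subst h; rfl
    · have := card_of_joined hR1 (ee1 p τ N) (ee2 p τ N) w₀ (joined_points hτ hN p a (hrr p a h))
      show ((fibre hR1 (ee1 p τ N) (ee2 p τ N) w₀ ((a, a, 0) : WW F N)).card : ℝ) =
        (fibre hR1 (ee1 p τ N) (ee2 p τ N) w₀ w₀).card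
      exact_mod_cast this
  have hSadd : ∀ g g' a, S (g + g') a = S g a + S g' a := by
    intro g g' a
    show ∑ v ∈ _, (g + g') (E.ι v) = _
    simp only [Lip0.add_apply, Finset.sum_add_distrib]
    rfl
  have hSsmul : ∀ (c : ℝ) g a, S (c • g) a = c * S g a := by
    intro c g a
    show ∑ v ∈ _, (c • g) (E.ι v) = _
    simp only [Lip0.smul_apply, ← Finset.mul_sum]
    rfl
  have hSlip : ∀ (g : Lip0 X (0 : X)) (a b : F), |S g a - S g b| ≤
      n * (3 * τ * C * ‖g‖ * dist a b) := by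
    intro g a b
    by_cases hab : b = a
    · subst hab
      rw [sub_self, abs_zero]
      positivity
    · have h1 := sum_of_joined hR1 (ee1 p τ N) (ee2 p τ N) w₀
        (joined_points hτ hN b a (hrr b a hab)) (fun v => g (E.ι v)) (C * ‖g‖) (by
          intro v e
          refine (g.abs_sub_le _ _).trans ?_
          rw [dist_eq_norm]
          have h2 : ‖E.ι (v.move e) - E.ι v‖ ≤ C := by
            show ‖emb hR1 (ee1 p τ N) (ee2 p τ N) w₀ x (v.move e) -
              emb hR1 (ee1 p τ N) (ee2 p τ N) w₀ x v‖ ≤ C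
            rw [emb_sub]
            refine (hx2 _).trans ?_
            rw [sum_abs_co, Cay.V.δ_comm, Cay.V.δ_move]
            simp
          calc ‖g‖ * ‖E.ι (v.move e) - E.ι v‖ ≤ ‖g‖ * C :=
                mul_le_mul_of_nonneg_left h2 (norm_nonneg _)
            _ = C * ‖g‖ := mul_comm _ _)
      rw [hcard b] at h1
      refine h1.trans ?_
      have h2 : ((rr τ b a + 2 : ℕ) : ℝ) ≤ 3 * (τ * dist a b) := by
        have h3 := hτd b a hab
        have h4 : (rr τ b a : ℝ) < τ * dist b a + 1 := Nat.ceil_lt_add_one (by positivity)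
        push_cast
        rw [dist_comm a b]
        linarith
      calc n * (((rr τ b a + 2 : ℕ) : ℝ) * (C * ‖g‖)) ≤
            n * ((3 * (τ * dist a b)) * (C * ‖g‖)) := by gcongr
        _ = _ := by ring
  let A : Lip0 X (0 : X) →L[ℝ] Lip0 F p := LinearMap.mkContinuous
    { toFun := fun g => ⟨fun a => (n * τ)⁻¹ * (S g a - S g p), by simp,
        ⟨3 * C * ‖g‖, by positivity⟩, LipschitzWith.of_dist_le_mul fun a b => by
          rw [Real.dist_eq, ← mul_sub, sub_sub_sub_cancel_right, abs_mul,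
            abs_of_pos (by positivity)]
          calc _ ≤ (n * τ)⁻¹ * (n * (3 * τ * C * ‖g‖ * dist a b)) :=
                mul_le_mul_of_nonneg_left (hSlip g a b) (by positivity)
            _ = 3 * C * ‖g‖ * dist a b := by field_simp⟩
      map_add' := fun g g' => by
        apply DFunLike.ext
        intro a
        show (n * τ)⁻¹ * (S (g + g') a - S (g + g') p) =
          (n * τ)⁻¹ * (S g a - S g p) + (n * τ)⁻¹ * (S g' a - S g' p)
        rw [hSadd, hSadd]
        ring
      map_smul' := fun c g => by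
        apply DFunLike.ext
        intro a
        show (n * τ)⁻¹ * (S (c • g) a - S (c • g) p) = c * ((n * τ)⁻¹ * (S g a - S g p))
        rw [hSsmul, hSsmul]
        ring }
    (3 * C) (fun g => by
      refine Lip0.norm_le _ (by positivity) fun a b => ?_
      show |(n * τ)⁻¹ * (S g a - S g p) - (n * τ)⁻¹ * (S g b - S g p)| ≤ _
      rw [← mul_sub, sub_sub_sub_cancel_right, abs_mul, abs_of_pos (by positivity)]
      calc _ ≤ (n * τ)⁻¹ * (n * (3 * τ * C * ‖g‖ * dist a b)) :=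
            mul_le_mul_of_nonneg_left (hSlip g a b) (by positivity)
        _ = 3 * C * ‖g‖ * dist a b := by field_simp)
  refine ⟨J, A, fun f => ?_, ?_, ?_⟩
  · apply DFunLike.ext
    intro a
    show (n * τ)⁻¹ * (S (J f) a - S (J f) p) = f a
    have key : ∀ b : F, S (J f) b = n * (τ * (f b - E.HH (fun v => hf τ N f (P v)) 0)) := by
      intro b
      have h1 : ∀ v ∈ fibre hR1 (ee1 p τ N) (ee2 p τ N) w₀ ((b, b, 0) : WW F N),
          (J f) (E.ι v) = τ * (f b - E.HH (fun v => hf τ N f (P v)) 0) := by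
        intro v hv
        have h2 : P v = ((b, b, 0) : WW F N) := (mem_fibre hR1 (ee1 p τ N) (ee2 p τ N) w₀).mp hv
        show τ * (E.HH (fun v => hf τ N f (P v)) (E.ι v) -
          E.HH (fun v => hf τ N f (P v)) 0) = _
        rw [E.HH_ι, h2, hf_zero]
      show ∑ v ∈ fibre hR1 (ee1 p τ N) (ee2 p τ N) w₀ ((b, b, 0) : WW F N), (J f) (E.ι v) = _
      rw [Finset.sum_congr rfl h1, Finset.sum_const, nsmul_eq_mul, hcard b]
    rw [key, key, f.map_base]
    field_simp
    ring
  · exact (LinearMap.mkContinuous_norm_le _ (by norm_num) _).trans (le_max_left _ _)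
  · exact (LinearMap.mkContinuous_norm_le _ (by positivity) _).trans (le_max_right _ _)

end

end Pool.Agent.Lib.MP_65fa9b_an_b
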