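import Pool.Agent.Lib.MP_65fa9b_an_b.Factor

/-!
# The main theorem for spaces containing `ℓ₁ⁿ` uniformly
-/

set_option autoImplicit false

open Metric Set Filter Topology

open scoped BoundedContinuousFunction

open Pool.Agent.Lib.MP_65fa9b_an

namespace Pool.Agent.Lib.MP_65fa9b_an_b

section

variable {X : Type*} [NormedAddCommGroup X] [NormedSpace ℝ X]

theorem not_finiteDimensional (hX : UniformlyContainsL1 X) : ¬ FiniteDimensional ℝ X := by
  intro hfin
  obtain ⟨C, hC⟩ := hX
  obtain ⟨x, hx⟩ := hC (Module.finrank ℝ X + 1)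
  have hli : LinearIndependent ℝ x := by
    rw [Fintype.linearIndependent_iff]
    intro a ha i
    have h1 := (hx a).1
    rw [ha, norm_zero] at h1
    have h2 := Finset.single_le_sum (f := fun k => |a k|) (fun _ _ => abs_nonneg _)
      (Finset.mem_univ i)
    exact abs_eq_zero.mp (le_antisymm (h2.trans h1) (abs_nonneg _))
  have h1 := hli.fintype_card_le_finrank
  rw [Fintype.card_fin] at h1
  omega

theorem nontrivial_of (hX : UniformlyContainsL1 X) : Nontrivial X := by
  by_contra h
  rw [not_nontrivial_iff_subsingleton] at h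
  exact not_finiteDimensional hX inferInstance

/-- If the Lipschitz spaces of the finite subsets of `M ⊆ X` factor uniformly through `Lip₀(X)`,
then `Lip₀(M)` is complemented in the `ℓ_∞`-sum, indexed by a maximal separated set. -/
theorem fac_subset (hX : UniformlyContainsL1 X) {S : Set X} (hS : Maximal Sep S)
    [TopologicalSpace S] [DiscreteTopology S] {M : Set X} (p : M) :
    Fac (Lip0 M p) (S →ᵇ Lip0 X (0 : X)) := by
  have hinf : Infinite S := infinite_of_maximal hS (not_finiteDimensional hX)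
  obtain ⟨C, hC⟩ := local_factor hX
  letI : TopologicalSpace (Finset (List (S × ℚ) × ℕ)) := ⊥
  haveI : DiscreteTopology (Finset (List (S × ℚ) × ℕ)) := ⟨rfl⟩
  have h1 := fac_of_local p (dd (S := S) p) (dd_dense hS p) C fun i => hC _ _
  obtain ⟨e⟩ := card_Q (S := S)
  exact h1.trans (fac_of_equiv_index e)

theorem main_equiv (hX : UniformlyContainsL1 X) {M : Set X} (hM : ¬ Porous M) (p : M) (q : X) :
    Nonempty (Lip0 M p ≃L[ℝ] Lip0 X q) := by
  have hnt := nontrivial_of hX
  obtain ⟨S, hS⟩ := exists_maximal_sep (X := X)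
  have hinf : Infinite S := infinite_of_maximal hS (not_finiteDimensional hX)
  letI : TopologicalSpace S := ⊥
  haveI : DiscreteTopology S := ⟨rfl⟩
  -- `ℓ_∞(S; V)` is complemented in `V = Lip₀(X)`
  have hWV : Fac (S →ᵇ Lip0 X (0 : X)) (Lip0 X (0 : X)) := by
    obtain ⟨B⟩ := ballData_univ (X := X) (S := S) (fun s => (s : X)) (fun s => hS.prop.1 s s.2)
      (fun s t hst => hS.prop.2 s s.2 t t.2 fun h => hst (Subtype.ext h))
    exact (B.fac ⟨0, mem_univ 0⟩).trans (Fac.of_equiv (univEquiv ⟨0, mem_univ 0⟩))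
  -- `V` is complemented in `U = Lip₀(M)`
  have hVU : Fac (Lip0 X (0 : X)) (Lip0 M p) := by
    obtain ⟨B⟩ := exists_ballData hM
    exact fac_single.trans (B.fac p)
  have hUW : Fac (Lip0 M p) (S →ᵇ Lip0 X (0 : X)) := fac_subset hX hS p
  obtain ⟨e1⟩ := decomposition hUW (hWV.trans hVU)
  obtain ⟨e2⟩ := decomposition (fac_single (V := Lip0 X (0 : X)) (I := S)) hWV
  exact ⟨(e1.trans e2.symm).trans (rebaseEquiv (0 : X) q)⟩

/-- The Lipschitz space of every separable metric space is complemented in `Lip₀(X)`. -/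
theorem main_universal (hX : UniformlyContainsL1 X) (M : Type*) [MetricSpace M]
    [TopologicalSpace.SeparableSpace M] (p : M) (q : X) : Fac (Lip0 M p) (Lip0 X q) := by
  have hnt := nontrivial_of hX
  obtain ⟨S, hS⟩ := exists_maximal_sep (X := X)
  have hinf : Infinite S := infinite_of_maximal hS (not_finiteDimensional hX)
  letI : TopologicalSpace S := ⊥
  haveI : DiscreteTopology S := ⟨rfl⟩
  have hWV : Fac (S →ᵇ Lip0 X (0 : X)) (Lip0 X (0 : X)) := by
    obtain ⟨B⟩ := ballData_univ (X := X) (S := S) (fun s => (s : X)) (fun s => hS.prop.1 s s.2)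
      (fun s t hst => hS.prop.2 s s.2 t t.2 fun h => hst (Subtype.ext h))
    exact (B.fac ⟨0, mem_univ 0⟩).trans (Fac.of_equiv (univEquiv ⟨0, mem_univ 0⟩))
  obtain ⟨C, hC⟩ := local_factor hX
  have : Nonempty M := ⟨p⟩
  letI : TopologicalSpace (Finset ℕ) := ⊥
  haveI : DiscreteTopology (Finset ℕ) := ⟨rfl⟩
  have h1 := fac_of_local p (TopologicalSpace.denseSeq M) (TopologicalSpace.denseRange_denseSeq M) C
    fun i => hC _ _
  obtain ⟨g⟩ : Nonempty (Finset ℕ ↪ S) := by
    obtain ⟨g1⟩ : Nonempty (Finset ℕ ↪ ℕ) := ⟨⟨Encodable.encode, Encodable.encode_injective⟩⟩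
    exact ⟨g1.trans (Infinite.natEmbedding S)⟩
  exact ((h1.trans (fac_of_injective g g.injective)).trans hWV).trans
    (Fac.of_equiv (rebaseEquiv (0 : X) q))

end

end Pool.Agent.Lib.MP_65fa9b_an_b
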