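import Mathlib

/-!
# Reduced words and a finite group in which short reduced words act freely
-/

set_option autoImplicit false

namespace Pool.Agent.Lib.MP_65fa9b_an_b

variable {Λ : Type*} [DecidableEq Λ] {R : ℕ}

/-- Reduced words: no two neighbouring letters are equal. -/
def Red (l : List Λ) : Prop := l.IsChain (· ≠ ·)

/-- The set of reduced words of length at most `R`. -/
abbrev TT (Λ : Type*) (R : ℕ) : Type _ := {l : List Λ // Red l ∧ l.length ≤ R}

instance [Finite Λ] : Finite (TT Λ R) := by
  have h : {l : List Λ | l.length ≤ R}.Finite := List.finite_length_le Λ R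
  have h' : {l : List Λ | Red l ∧ l.length ≤ R}.Finite := h.subset fun l hl => hl.2
  exact h'.to_subtype

omit [DecidableEq Λ] in
theorem Red.tail {l : List Λ} (h : Red l) : Red l.tail := List.IsChain.tail h

omit [DecidableEq Λ] in
theorem Red.cons {l : List Λ} {e : Λ} (h : Red l) (he : l.head? ≠ some e) : Red (e :: l) := by
  unfold Red
  rw [List.isChain_cons]
  refine ⟨fun y hy => ?_, h⟩
  rintro rfl
  exact he hy

omit [DecidableEq Λ] in
theorem Red.head_tail {l : List Λ} {e : Λ} (h : Red (e :: l)) : l.head? ≠ some e := by
  intro he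
  unfold Red at h
  rw [List.isChain_cons] at h
  exact h.1 e he rfl

/-- Toggle the first letter. -/
def tog (e : Λ) (w : TT Λ R) : TT Λ R :=
  if h : w.1.head? = some e then ⟨w.1.tail, w.2.1.tail, by
    have := w.2.2; rw [List.length_tail]; omega⟩
  else if h' : w.1.length < R then ⟨e :: w.1, w.2.1.cons h, by simpa using h'⟩
  else w

theorem tog_of_head {e : Λ} {w : TT Λ R} (h : w.1.head? = some e) : (tog e w).1 = w.1.tail := by
  unfold tog
  rw [dif_pos h]

theorem tog_of_not_head {e : Λ} {w : TT Λ R} (h : w.1.head? ≠ some e) (h' : w.1.length < R) :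
    (tog e w).1 = e :: w.1 := by
  unfold tog
  rw [dif_neg h, dif_pos h']

theorem tog_tog (e : Λ) (w : TT Λ R) : tog e (tog e w) = w := by
  by_cases h : w.1.head? = some e
  · obtain ⟨l, hl⟩ : ∃ l, w.1 = e :: l := by
      rcases hw : w.1 with _ | ⟨a, l⟩
      · rw [hw] at h; simp at h
      · rw [hw] at h
        simp only [List.head?_cons, Option.some.injEq] at h
        exact ⟨l, by rw [h]⟩
    have h1 : (tog e w).1 = l := by rw [tog_of_head h, hl]; rfl
    have h2 : l.head? ≠ some e := by
      have := w.2.1
      rw [hl] at this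
      exact this.head_tail
    apply Subtype.ext
    rw [tog_of_not_head (by rw [h1]; exact h2) (by
      rw [h1]
      have := w.2.2
      rw [hl] at this
      simpa using this), h1, hl]
  · by_cases h' : w.1.length < R
    · have h1 := tog_of_not_head h h'
      apply Subtype.ext
      rw [tog_of_head (by rw [h1]; rfl), h1]
      rfl
    · have h1 : tog e w = w := by
        unfold tog
        rw [dif_neg h, dif_neg h']
      rw [h1, h1]

/-- The involution of the set of reduced words given by a letter. -/
def gen (R : ℕ) (e : Λ) : Equiv.Perm (TT Λ R) := ⟨tog e, tog e, tog_tog e, tog_tog e⟩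

@[simp] theorem gen_apply (e : Λ) (w : TT Λ R) : gen R e w = tog e w := rfl

theorem gen_mul_self (e : Λ) : gen R e * gen R e = 1 := by
  ext1 w
  exact tog_tog e w

/-- The empty word. -/
def nilT : TT Λ R := ⟨[], List.isChain_nil, Nat.zero_le _⟩

theorem prod_nil (l : List Λ) (hl : Red l) (hR : l.length ≤ R) :
    ((l.map (gen R)).prod nilT).1 = l := by
  induction l with
  | nil => rfl
  | cons e l ih =>
    rw [List.map_cons, List.prod_cons, Equiv.Perm.mul_apply]
    have h1 := ih hl.tail (by simp at hR; omega)
    rw [gen_apply, tog_of_not_head, h1]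
    · rw [h1]; exact hl.head_tail
    · rw [h1]; simpa using hR

/-- Short reduced words are determined by their product. -/
theorem eq_of_prod_eq {l l' : List Λ} (hl : Red l) (hl' : Red l') (hR : l.length ≤ R)
    (hR' : l'.length ≤ R) (h : (l.map (gen R)).prod = (l'.map (gen R)).prod) : l = l' := by
  rw [← prod_nil l hl hR, ← prod_nil l' hl' hR', h]

theorem gen_ne_one (hR : 1 ≤ R) (e : Λ) : gen R e ≠ 1 := by
  intro h
  have h1 : [e] = ([] : List Λ) := by
    refine eq_of_prod_eq (R := R) (by unfold Red; exact List.isChain_singleton _)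
      List.isChain_nil (by simpa using hR) (Nat.zero_le _) ?_
    simpa using h
  simp at h1

end Pool.Agent.Lib.MP_65fa9b_an_b
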